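import Pool.Agent.Lib.MP_1a4aff_gt.Lap

/-!
A group of isometries normalising the transitive group and its action on functions.
-/

open NormedSpace MeasureTheory Module Filter Topology
open scoped Matrix ComplexConjugate

set_option linter.unusedSectionVars false

namespace Pool.Agent.Lib.MP_1a4aff_gt

variable {A E : Type*} [NormedRing A] [NormedAlgebra ℝ A] [StarRing A] [CStarRing A]
  [CompleteSpace A] [FiniteDimensional ℝ A] [NormedAddCommGroup E] [InnerProductSpace ℝ E]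
  [FiniteDimensional ℝ E] [Module A E] [IsScalarTower ℝ A E] {d : ℕ}

/-- A group of isometries normalising the group and preserving the orbit and the frame. -/
structure Cov (O : Orb A E d) where
  Γ : Subgroup (unitary A)
  nrm : ∀ γ ∈ Γ, ∀ X ∈ O.g, (γ : A) * X * star (γ : A) ∈ O.g
  orb : ∀ γ ∈ Γ, ∃ y : grp O.g, (val y * γ) • O.v = O.v
  red : ∀ γ ∈ Γ, ∀ y : grp O.g, (val y * γ) • O.v = O.v → ∀ i,
    val y * γ * O.e i * star (val y * γ) ∈ Submodule.span ℝ (Set.range fun i => (O.e i : A))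
  free : ∀ γ ∈ Γ, (γ : A) • O.v = O.v → γ = 1

namespace Cov

open Dat Orb

variable {O : Orb A E d} {C : Cov O}

/-- The operator of an element. -/
def vl (γ : C.Γ) : A := (γ : unitary A)

@[simp] theorem vl_mul (γ γ' : C.Γ) : vl (γ * γ') = vl γ * vl γ' := rfl

@[simp] theorem vl_one : vl (1 : C.Γ) = 1 := rfl

theorem vl_inv (γ : C.Γ) : vl γ⁻¹ = star (vl γ) := rfl

@[simp] theorem vl_inv_mul (γ : C.Γ) : vl γ⁻¹ * vl γ = 1 := by
  rw [← vl_mul, inv_mul_cancel, vl_one]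

@[simp] theorem vl_mul_inv (γ : C.Γ) : vl γ * vl γ⁻¹ = 1 := by
  rw [← vl_mul, mul_inv_cancel, vl_one]

theorem inner_vl (γ : C.Γ) (a b : E) : inner ℝ (vl γ • a) (vl γ • b) = inner ℝ a b := by
  rw [← O.adj, ← vl_inv, smul_smul, vl_inv_mul, one_smul]

/-- The adjoint action. -/
def adG (γ : C.Γ) (X : O.g) : O.g := ⟨vl γ * X * vl γ⁻¹, C.nrm γ γ.2 X X.2⟩

@[simp] theorem coe_adG (γ : C.Γ) (X : O.g) : (adG γ X : A) = vl γ * X * vl γ⁻¹ := rfl

theorem conj_mem_grp (γ : C.Γ) (x : grp O.g) :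
    (γ : unitary A) * x * (γ : unitary A)⁻¹ ∈ grp O.g := by
  induction x using ind (D := O.toDat) with
  | h1 => simp
  | h X x ih =>
    have h1 : (γ : unitary A) * ex X * (γ : unitary A)⁻¹ = ex (adG γ X) := Subtype.ext (by
      let +nondep : NormedAlgebra ℚ A := .restrictScalars ℚ ℝ _
      exact (exp_units_conj (Unitary.toUnits (γ : unitary A)) (X : A)).symm)
    have h2 := mul_mem (h1 ▸ (ex (adG γ X)).2) ih
    convert h2 using 1
    simp [mul_assoc]

/-- Conjugation. -/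
def cj (γ : C.Γ) : grp O.g →* grp O.g where
  toFun x := ⟨_, conj_mem_grp γ x⟩
  map_one' := Subtype.ext (by simp)
  map_mul' x y := Subtype.ext (by simp [mul_assoc])

@[simp] theorem val_cj (γ : C.Γ) (x : grp O.g) : val (cj γ x) = vl γ * val x * vl γ⁻¹ := rfl

theorem continuous_cj (γ : C.Γ) : Continuous (cj γ) :=
  Continuous.subtype_mk (by fun_prop) _

theorem map_cj (γ : C.Γ) : O.μ.map (cj γ) = O.μ := by
  have := Measure.isProbabilityMeasure_map (μ := O.μ) (continuous_cj γ).measurable.aemeasurable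
  have := Measure.isHaarMeasure_map_of_isFiniteMeasure O.μ (cj γ) (continuous_cj γ)
    fun x => ⟨cj γ⁻¹ x, val_injective (by simp [← mul_assoc]; simp [mul_assoc])⟩
  exact Measure.isHaarMeasure_eq_of_isProbabilityMeasure _ _

/-- A group element correcting the base point. -/
noncomputable def yy (γ : C.Γ) : grp O.g := (C.orb _ (γ⁻¹).2).choose

theorem yy_spec (γ : C.Γ) : (val (yy γ) * vl γ⁻¹) • O.v = O.v := (C.orb _ (γ⁻¹).2).choose_spec

/-- The lift of the action to the group. -/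
noncomputable def pt (γ : C.Γ) (x : grp O.g) : grp O.g := cj γ (x * yy γ)

theorem val_pt (γ : C.Γ) (x : grp O.g) :
    val (pt γ x) = vl γ * val x * (val (yy γ) * vl γ⁻¹) := by
  rw [pt, val_cj, val_mul]
  simp only [mul_assoc]

theorem pt_smul (γ : C.Γ) (x : grp O.g) : val (pt γ x) • O.v = vl γ • val x • O.v := by
  rw [val_pt, mul_smul, yy_spec, mul_smul]

/-- The action on functions. -/
noncomputable def pi (γ : C.Γ) : O.H →ₐ[ℂ] O.H where
  toFun f := ⟨(cm f).comp ⟨pt γ, (continuous_cj γ).comp (by fun_prop)⟩, by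
    obtain ⟨F, hF, rfl⟩ := exists_res f
    exact ⟨fun a => F (vl γ * a * (val (yy γ) * vl γ⁻¹)), hF.comp (by fun_prop),
      fun x => congrArg F (val_pt γ x)⟩⟩
  map_one' := rfl
  map_mul' _ _ := rfl
  map_zero' := rfl
  map_add' _ _ := rfl
  commutes' _ := rfl

@[simp] theorem cm_pi (γ : C.Γ) (f : O.H) (x : grp O.g) : cm (pi γ f) x = cm f (pt γ x) := rfl

theorem pi_mem (γ : C.Γ) {f : O.H} (hf : f ∈ O.H0) : pi γ f ∈ O.H0 :=
  fun x z h => hf (pt γ x) (pt γ z) (by rw [pt_smul, pt_smul, h])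

theorem pi_pi (γ γ' : C.Γ) {f : O.H} (hf : f ∈ O.H0) : pi γ (pi γ' f) = pi (γ' * γ) f :=
  ext' fun x => hf (pt γ' (pt γ x)) (pt (γ' * γ) x) (by simp only [pt_smul, vl_mul, mul_smul])

theorem pi_one {f : O.H} (hf : f ∈ O.H0) : pi (1 : C.Γ) f = f :=
  ext' fun x => hf (pt 1 x) x (by simp [pt_smul])

theorem inner_pi (γ : C.Γ) (f g : O.H) : inner ℂ (pi γ f) (pi γ g) = inner ℂ f g := by
  rw [inner_def, inner_def]
  have h1 := integral_map (μ := O.μ) (continuous_cj γ).measurable.aemeasurable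
    (f := fun x => cm g x * conj (cm f x)) (Continuous.aestronglyMeasurable (by fun_prop))
  rw [map_cj] at h1
  rw [h1]
  exact integral_mul_right_eq_self (fun x => cm g (cj γ x) * conj (cm f (cj γ x))) (yy γ)

theorem pi_der {γ : C.Γ} {X Y X' Y' : O.g} (hX : vl γ * X' = X * vl γ)
    (hY : Y' * (val (yy γ) * vl γ⁻¹) = val (yy γ) * vl γ⁻¹ * Y) (f : O.H) :
    pi γ (der X Y f) = der X' Y' (pi γ f) := ext' fun x => by
  refine HasDerivAt.unique ?_ (hasDerivAt_der (pi γ f) X' Y' x)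
  have h := hasDerivAt_curve f (γ := fun s => pt γ (ex (s • X') * x * ex (s • Y')))
    (X := X) (Y := Y) (t := 0) (by
      simp only [val_pt]
      convert ((hasDerivAt_flow X' Y' x 0).const_mul (vl γ)).mul_const
        (val (yy γ) * vl γ⁻¹) using 1
      simp only [zero_smul, ex_zero, one_mul, mul_one, _root_.mul_add, add_mul]
      rw [← mul_assoc (vl γ), hX, mul_assoc (vl γ * val x), ← hY]
      simp only [mul_assoc])
  simpa using h

theorem pi_derL (γ : C.Γ) (X : O.g) (f : O.H) :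
    pi γ (der X 0 f) = der (adG γ⁻¹ X) 0 (pi γ f) :=
  pi_der (by simp [← mul_assoc]) (by simp) f

theorem act_pi (γ : C.Γ) (y : grp O.g) (f : O.H) :
    act y 1 (pi γ f) = pi γ (act (cj γ y) 1 f) := ext' fun x => by
  simp [pt, mul_assoc]

theorem pi_U (γ : C.Γ) (N : ℕ) : ∀ f ∈ O.U N, pi γ f ∈ O.U N := by
  change O.U N ≤ (O.U N).comap (pi γ).toLinearMap
  refine sSup_le fun _ ⟨h3, h4, h5, h6⟩ => Submodule.map_le_iff_le_comap.1 (le_sSup
    ⟨inferInstance, (Submodule.finrank_map_le _ _).trans h4, ?_, ?_⟩)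
  · rintro y _ ⟨f, hf, rfl⟩
    exact ⟨_, h5 (cj γ y) f hf, (act_pi γ y f).symm⟩
  · rintro _ ⟨f, hf, rfl⟩
    exact pi_mem γ (h6 hf)

variable (C) in
/-- Invariant symmetric matrices. -/
def adm : Set (Matrix (Fin d) (Fin d) ℝ) :=
  {B | B.IsHermitian ∧ ∀ (γ : C.Γ) (y : grp O.g), (val y * vl γ) • O.v = O.v →
    ∀ T : Matrix (Fin d) (Fin d) ℝ,
      (∀ j, ad y (adG γ (O.e j)) = ∑ i, T i j • O.e i) → T * B * Tᵀ = B}

theorem adG_one (X : O.g) : adG (1 : C.Γ) X = X := Subtype.ext (by simp)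

theorem adm_le {B : Matrix (Fin d) (Fin d) ℝ} (hB : B ∈ C.adm) : B ∈ O.adm :=
  ⟨hB.1, fun k hk T hT => hB.2 1 k (by simpa using hk) T (by simpa only [adG_one] using hT)⟩

theorem exists_T {γ : C.Γ} {y : grp O.g} (h : (val y * vl γ) • O.v = O.v) :
    ∃ T : Matrix (Fin d) (Fin d) ℝ, ∀ j, ad y (adG γ (O.e j)) = ∑ i, T i j • O.e i := by
  choose c hc using fun j => (Submodule.mem_span_range_iff_exists_fun ℝ).1 (C.red γ γ.2 y h j)
  refine ⟨fun i j => c j i, fun j => Subtype.ext ?_⟩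
  simp only [coe_ad, coe_adG, Submodule.coe_sum, Submodule.coe_smul, hc, star_mul, vl_inv, val_inv,
    mul_assoc]
  rfl

theorem smul_T {γ : C.Γ} {y : grp O.g} (h : (val y * vl γ) • O.v = O.v)
    {T : Matrix (Fin d) (Fin d) ℝ} (hT : ∀ j, ad y (adG γ (O.e j)) = ∑ i, T i j • O.e i)
    (j : Fin d) : (val y * vl γ) • (O.e j : A) • O.v = ∑ i, T i j • (O.e i : A) • O.v := by
  have h1 := congrArg (fun X : O.g => (X : A) • (val y * vl γ) • O.v) (hT j)
  have h2 : (ad y (adG γ (O.e j)) : A) * (val y * vl γ) = val y * vl γ * O.e j := by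
    simp only [coe_ad, coe_adG, mul_assoc]
    rw [← mul_assoc (val y⁻¹), val_inv_mul, one_mul, vl_inv_mul, mul_one]
  rw [smul_smul, h2, h] at h1
  rw [smul_smul, h1]
  simp [Finset.sum_smul]

theorem lap_pi {B : Matrix (Fin d) (Fin d) ℝ} (hB : B ∈ C.adm) (γ : C.Γ) (f : O.H) :
    O.lap B (pi γ f) = pi γ (O.lap B f) := by
  obtain ⟨T, hT⟩ := exists_T (yy_spec γ)
  have h : ∀ (Y : O.g) f, pi γ (der 0 Y f) = der 0 (ad (yy γ) (adG γ⁻¹ Y)) (pi γ f) := fun Y f =>
    pi_der (by simp) (by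
      simp only [coe_ad, coe_adG, mul_assoc, inv_inv]
      rw [← mul_assoc (val (yy γ)⁻¹), val_inv_mul, one_mul, vl_mul_inv, mul_one]) f
  have h1 := sum_conj B T fun i => der 0 (O.e i)
  rw [hB.2 _ _ (yy_spec γ) T hT] at h1
  simp only [← der_sum, ← hT] at h1
  conv_lhs => rw [lap_eq, ← h1]
  simp [lap_eq, h, -Complex.coe_smul]

end Cov

end Pool.Agent.Lib.MP_1a4aff_gt
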