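import Mathlib

/-!
A cyclic module whose symmetrised powers span a small space has bounded dimension.
-/

open Module

namespace Pool.Agent.Lib.MP_1a4aff_gt.LH

theorem zero_of_psum {Γ : Type*} [Fintype Γ] (x : Γ → ℂ) (a : ℕ)
    (h : ∀ i < Fintype.card Γ, ∑ γ, x γ ^ (a + 1 + i) = 0) (γ0 : Γ) : x γ0 = 0 := by
  classical
  by_contra h0
  let q : Polynomial ℂ :=
    ∏ y ∈ (Finset.univ.image x).erase (x γ0), (Polynomial.X - Polynomial.C y)
  have hq : q.natDegree < Fintype.card Γ := by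
    rw [Polynomial.natDegree_finsetProd_X_sub_C_eq_card]
    exact (Finset.card_erase_lt_of_mem (Finset.mem_image_of_mem x (Finset.mem_univ γ0))).trans_le
      Finset.card_image_le
  have h1 : ∑ γ, x γ ^ (a + 1) * q.eval (x γ) = 0 := by
    simp only [Polynomial.eval_eq_sum_range' hq, Finset.mul_sum]
    rw [Finset.sum_comm]
    refine Finset.sum_eq_zero fun i hi => ?_
    have h2 := h i (Finset.mem_range.1 hi)
    calc _ = q.coeff i * ∑ γ, x γ ^ (a + 1 + i) := by
          rw [Finset.mul_sum]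
          exact Finset.sum_congr rfl fun _ _ => by ring
      _ = 0 := by rw [h2, mul_zero]
  have h2 : ∀ γ, x γ ^ (a + 1) * q.eval (x γ) =
      if x γ = x γ0 then x γ0 ^ (a + 1) * q.eval (x γ0) else 0 := fun γ => by
    split_ifs with h3
    · rw [h3]
    · refine mul_eq_zero_of_right _ ?_
      rw [Polynomial.eval_prod]
      exact Finset.prod_eq_zero (Finset.mem_erase.2
        ⟨h3, Finset.mem_image_of_mem x (Finset.mem_univ γ)⟩) (by simp)
  have h3 : q.eval (x γ0) ≠ 0 := by
    rw [Polynomial.eval_prod]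
    exact Finset.prod_ne_zero_iff.2 fun y hy => by
      simpa [sub_eq_zero] using (Finset.mem_erase.1 hy).1.symm
  rw [Finset.sum_congr rfl fun γ _ => h2 γ, ← Finset.sum_filter, Finset.sum_const, nsmul_eq_mul] at h1
  refine mul_ne_zero (Nat.cast_ne_zero.2 (Finset.card_ne_zero.2 ⟨γ0, by simp⟩))
    (mul_ne_zero (pow_ne_zero _ h0) h3) h1

theorem exists_M (ι Γ : Type*) [Fintype ι] [Fintype Γ] (a : ℕ) : ∃ M : ℕ, ∀ L : List (ι × Γ),
    L.length = M → (L.map MvPolynomial.X).prod ∈ Ideal.span {p : MvPolynomial (ι × Γ) ℂ |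
      ∃ i, ∃ j < Fintype.card Γ, p = ∑ γ, MvPolynomial.X (i, γ) ^ (a + 1 + j)} := by
  set I := Ideal.span {p : MvPolynomial (ι × Γ) ℂ |
      ∃ i, ∃ j < Fintype.card Γ, p = ∑ γ, MvPolynomial.X (i, γ) ^ (a + 1 + j)} with hI
  let J : Ideal (MvPolynomial (ι × Γ) ℂ) := Ideal.span (Set.range MvPolynomial.X)
  have h1 : J ≤ I.radical := by
    rw [← MvPolynomial.vanishingIdeal_zeroLocus_eq_radical (K := ℂ), Ideal.span_le]
    rintro _ ⟨⟨i, γ⟩, rfl⟩ x hx
    rw [MvPolynomial.aeval_X]
    refine zero_of_psum (fun γ => x (i, γ)) a (fun j hj => ?_) γ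
    simpa using hx _ (Ideal.subset_span ⟨i, j, hj, rfl⟩)
  obtain ⟨M, hM⟩ := Ideal.exists_pow_le_of_le_radical_of_fg_radical h1
    (IsNoetherian.noetherian _)
  refine ⟨M, fun L hL => hM ?_⟩
  rw [← hL]
  clear hL
  induction L with
  | nil => simp
  | cons b L ih =>
    rw [List.map_cons, List.prod_cons, List.length_cons, pow_succ']
    exact Ideal.mul_mem_mul (Ideal.subset_span ⟨b, rfl⟩) ih

variable {H : Type*} [AddCommGroup H] [Module ℂ H] {ι Γ : Type*}

/-- The span of the words of length `< k` applied to `f`. -/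
def Wd (r : ι → End ℂ H) (f : H) (k : ℕ) : Submodule ℂ H :=
  Submodule.span ℂ (Set.range fun L : {L : List ι | L.length < k} => (L.1.map r).prod f)

theorem Wd_mono (r : ι → End ℂ H) (f : H) {k l : ℕ} (h : k ≤ l) : Wd r f k ≤ Wd r f l := by
  refine Submodule.span_mono ?_
  rintro _ ⟨L, rfl⟩
  exact ⟨⟨L.1, L.2.trans_le h⟩, rfl⟩

theorem Wd_step {r : ι → End ℂ H} {f : H} {T : End ℂ H}
    (hT : T ∈ Submodule.span ℂ (Set.range r)) {k : ℕ} {g : H} (hg : g ∈ Wd r f k) :
    T g ∈ Wd r f (k + 1) := by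
  induction hT using Submodule.span_induction with
  | mem T hT =>
    obtain ⟨i, rfl⟩ := hT
    have h : Wd r f k ≤ (Wd r f (k + 1)).comap (r i) := by
      refine Submodule.span_le.2 ?_
      rintro _ ⟨L, rfl⟩
      exact Submodule.subset_span ⟨⟨i :: L.1, Nat.succ_lt_succ L.2⟩, by simp⟩
    exact h hg
  | zero => simp
  | add _ _ _ _ h1 h2 => exact add_mem h1 h2
  | smul c _ _ h => exact Submodule.smul_mem _ c h

/-- Shift operator on sequences. -/
def sh (T : End ℂ H) : End ℂ (ℕ → H) :=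
  LinearMap.pi fun k => match k with
    | 0 => 0
    | k + 1 => T ∘ₗ LinearMap.proj k

theorem sh_zero (T : End ℂ H) (w : ℕ → H) : sh T w 0 = 0 := rfl

theorem sh_succ (T : End ℂ H) (w : ℕ → H) (k : ℕ) : sh T w (k + 1) = T (w k) := rfl

theorem word_mem [Fintype ι] [Fintype Γ] {r : ι → End ℂ H} {s : ι × Γ → End ℂ H}
    (hs : ∀ b, s b ∈ Submodule.span ℂ (Set.range r))
    (hc : ∀ b b', s b * s b' - s b' * s b ∈ Submodule.span ℂ (Set.range r)) {f : H} {a : ℕ}
    (h : ∀ i, ∀ j < Fintype.card Γ, ∑ γ, (s (i, γ) ^ (a + 1 + j)) f ∈ Wd r f (a + 1 + j))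
    (L : List (ι × Γ)) (hL : (L.map MvPolynomial.X).prod ∈ Ideal.span
      {p : MvPolynomial (ι × Γ) ℂ |
        ∃ i, ∃ j < Fintype.card Γ, p = ∑ γ, MvPolynomial.X (i, γ) ^ (a + 1 + j)}) :
    (L.map s).prod f ∈ Wd r f L.length := by
  classical
  let R : Submodule ℂ (ℕ → H) := Submodule.pi Set.univ fun k => Wd r f (k + 1)
  let T : Submodule ℂ R := (Submodule.pi Set.univ fun k => Wd r f k).comap R.subtype
  have hR : ∀ b, ∀ w ∈ R, sh (s b) w ∈ R := fun b w hw k _ => by
    cases k with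
    | zero => exact zero_mem _
    | succ k => exact Wd_step (hs b) (hw k trivial)
  have hT : ∀ b, T ≤ T.comap ((sh (s b)).restrict (hR b)) := fun b w hw k _ => by
    cases k with
    | zero => exact zero_mem _
    | succ k => exact Wd_step (hs b) (hw k trivial)
  let bar : ι × Γ → End ℂ (R ⧸ T) := fun b => T.mapQ T _ (hT b)
  have hcomm : ∀ x ∈ Set.range bar, ∀ y ∈ Set.range bar, x * y = y * x := by
    rintro _ ⟨b, rfl⟩ _ ⟨b', rfl⟩
    refine T.linearMap_qext (LinearMap.ext fun w => ?_)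
    refine (Submodule.Quotient.eq T).2 fun k _ => ?_
    rcases k with _ | _ | k
    · change (0 : H) - 0 ∈ _
      simp
    · change s b 0 - s b' 0 ∈ _
      simp
    · exact Wd_step (hc b b') (w.2 k trivial)
  have := Algebra.isMulCommutative_adjoin ℂ hcomm
  let : CommRing (Algebra.adjoin ℂ (Set.range bar)) :=
    { (inferInstance : Ring (Algebra.adjoin ℂ (Set.range bar))) with mul_comm := mul_comm' }
  let ψ : MvPolynomial (ι × Γ) ℂ →ₐ[ℂ] End ℂ (R ⧸ T) :=
    (Algebra.adjoin ℂ (Set.range bar)).val.comp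
      (MvPolynomial.aeval fun b => ⟨bar b, Algebra.subset_adjoin ⟨b, rfl⟩⟩)
  have hψ : ∀ b, ψ (MvPolynomial.X b) = bar b := fun b => by simp [ψ]
  have hf : Pi.single 0 f ∈ R := fun k _ => by
    cases k with
    | zero => exact Submodule.subset_span ⟨⟨[], by simp⟩, by simp⟩
    | succ k => simp
  have h1 : ∀ L : List (ι × Γ), ∃ w : R, ψ (L.map MvPolynomial.X).prod (T.mkQ ⟨_, hf⟩) = T.mkQ w ∧
      (w : ℕ → H) = Pi.single L.length ((L.map s).prod f) := fun L => by
    induction L with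
    | nil => exact ⟨⟨_, hf⟩, by simp, by simp⟩
    | cons b L ih =>
      obtain ⟨w, h1, h2⟩ := ih
      refine ⟨(sh (s b)).restrict (hR b) w, ?_, funext fun k => ?_⟩
      · rw [List.map_cons, List.prod_cons, map_mul, Module.End.mul_apply, h1, hψ]
        rfl
      · change sh (s b) w k = _
        cases k with
        | zero => simp [sh_zero]
        | succ k =>
          rw [sh_succ, h2]
          by_cases hk : k = L.length
          · simp [hk]
          · simp [hk]
  have h2 : ∀ p ∈ Ideal.span {p : MvPolynomial (ι × Γ) ℂ |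
      ∃ i, ∃ j < Fintype.card Γ, p = ∑ γ, MvPolynomial.X (i, γ) ^ (a + 1 + j)},
      ψ p (T.mkQ ⟨_, hf⟩) = 0 := fun p hp => by
    induction hp using Submodule.span_induction with
    | mem p hp =>
      obtain ⟨i, j, hj, rfl⟩ := hp
      choose w hw hw' using fun γ => h1 (List.replicate (a + 1 + j) (i, γ))
      simp only [List.map_replicate, List.prod_replicate, List.length_replicate] at hw hw'
      rw [map_sum, LinearMap.sum_apply]
      simp only [hw]
      rw [← map_sum]
      refine (Submodule.Quotient.mk_eq_zero T).2 fun k _ => ?_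
      change ((∑ γ, w γ : R) : ℕ → H) k ∈ _
      rw [Submodule.coe_sum, Finset.sum_apply]
      simp only [hw']
      by_cases hk : k = a + 1 + j
      · simpa [hk] using h i j hj
      · simp [hk]
    | zero => simp
    | add _ _ _ _ h1 h2 => rw [map_add, LinearMap.add_apply, h1, h2, add_zero]
    | smul c _ _ h => rw [smul_eq_mul, map_mul, Module.End.mul_apply, h, map_zero]
  obtain ⟨w, hw, hw'⟩ := h1 L
  rw [h2 _ hL] at hw
  have h3 : (w : ℕ → H) L.length ∈ Wd r f L.length :=
    (Submodule.Quotient.mk_eq_zero T).1 hw.symm L.length trivial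
  simpa [hw'] using h3

theorem exists_c [Fintype ι] [Fintype Γ] {r : ι → End ℂ H} {s : ι × Γ → End ℂ H} {γ0 : Γ}
    (h0 : ∀ i, s (i, γ0) = r i) (hs : ∀ b, s b ∈ Submodule.span ℂ (Set.range r))
    (hc : ∀ b b', s b * s b' - s b' * s b ∈ Submodule.span ℂ (Set.range r)) (N : ℕ) :
    ∃ c : ℕ, ∀ (f : H) (Y : Submodule ℂ H), FiniteDimensional ℂ Y → finrank ℂ Y ≤ N →
      (∀ i j, ∑ γ, (s (i, γ) ^ j) f ∈ Y) → ∃ W : Submodule ℂ H, FiniteDimensional ℂ W ∧
        finrank ℂ W ≤ c ∧ f ∈ W ∧ (∀ T ∈ Submodule.span ℂ (Set.range r), ∀ g ∈ W, T g ∈ W) ∧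
        ∀ S : Submodule ℂ H, f ∈ S → (∀ i, ∀ g ∈ S, r i g ∈ S) → W ≤ S := by
  choose M hM using exists_M ι Γ
  set n := Fintype.card Γ
  refine ⟨∑ t ∈ Finset.range (N + 1), Nat.card {L : List ι | L.length < M (t * n)},
    fun f Y hY hN h => ?_⟩
  have hf : f ∈ Wd r f 1 := Submodule.subset_span ⟨⟨[], by simp⟩, by simp⟩
  obtain ⟨t, ht, h1⟩ : ∃ t ≤ N, Y ⊓ Wd r f ((t + 1) * n + 1) ≤ Wd r f (t * n + 1) := by
    by_contra h1
    push Not at h1
    have h2 : ∀ t ≤ N + 1, t ≤ finrank ℂ (Y ⊓ Wd r f (t * n + 1) : Submodule ℂ H) := by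
      intro t ht
      induction t with
      | zero => exact Nat.zero_le _
      | succ t ih =>
        have : FiniteDimensional ℂ (Y ⊓ Wd r f ((t + 1) * n + 1) : Submodule ℂ H) :=
          Submodule.finiteDimensional_of_le inf_le_left
        refine (ih (by omega)).trans_lt (Submodule.finrank_lt_finrank_of_lt (lt_of_le_of_ne
          (inf_le_inf_left _ (Wd_mono r f (by nlinarith))) fun h3 => h1 t (by omega) ?_))
        rw [← h3]
        exact inf_le_right
    have h3 := (h2 _ le_rfl).trans (Submodule.finrank_mono inf_le_left)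
    omega
  have h2 : ∀ b j, (s b ^ j) f ∈ Wd r f (j + 1) := fun b j => by
    induction j with
    | zero => simpa using hf
    | succ j ih =>
      rw [pow_succ', Module.End.mul_apply]
      exact Wd_step (hs b) ih
  have h3 : Wd r f (M (t * n) + 1) ≤ Wd r f (M (t * n)) := by
    refine Submodule.span_le.2 ?_
    rintro _ ⟨⟨L, hL⟩, rfl⟩
    rcases Nat.lt_succ_iff_lt_or_eq.1 hL with h4 | h4
    · exact Submodule.subset_span ⟨⟨L, h4⟩, rfl⟩
    · have h5 := word_mem hs hc (f := f) (a := t * n) (fun i j hj => Wd_mono r f (by omega)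
        (h1 ⟨h i _, Wd_mono r f (by nlinarith) (sum_mem fun γ _ => h2 (i, γ) _)⟩))
        (L.map fun i => (i, γ0)) (hM _ _ (by simpa using h4))
      simpa [h4, Function.comp_def, h0] using h5
  have : Fintype {L : List ι | L.length < M (t * n)} := (List.finite_length_lt ι _).fintype
  refine ⟨Wd r f (M (t * n)), FiniteDimensional.span_of_finite _ (Set.finite_range _), ?_,
    h3 (Wd_mono r f (by omega) hf), fun T hT g hg => h3 (Wd_step hT hg), fun S hS h4 => ?_⟩
  · refine (finrank_range_le_card _).trans ?_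
    rw [← Nat.card_eq_fintype_card]
    exact Finset.single_le_sum
      (f := fun t => Nat.card {L : List ι | L.length < M (t * n)}) (fun _ _ => Nat.zero_le _)
      (Finset.mem_range.2 (by omega))
  · refine Submodule.span_le.2 ?_
    rintro _ ⟨⟨L, hL⟩, rfl⟩
    change (L.map r).prod f ∈ S
    clear hL
    induction L with
    | nil => simpa using hS
    | cons i L ih =>
      rw [List.map_cons, List.prod_cons, Module.End.mul_apply]
      exact h4 i _ ih

end Pool.Agent.Lib.MP_1a4aff_gt.LH
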