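import Pool.Agent.Lib.MP_1a4aff_gt.Defs

/-!
Invariant metrics and Laplace eigenfunctions on the quotient of an orbit by a group of isometries.
-/

open scoped Matrix ContDiff

namespace Pool.Agent.Lib.MP_1a4aff_gt

variable {A : Type*} [NormedRing A] [NormedAlgebra ℝ A] [StarRing A]
  {E : Type*} [AddCommGroup E] [Module ℝ E] [Module A E] {d : ℕ}

/-- `Γ` normalises `𝔤`, maps `v` into its orbit, and the span of the `e i` is stable under
conjugation by every product `y γ` (`y` in the group of `𝔤`, `γ ∈ Γ`) that fixes `v`. -/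
def IsDeck (𝔤 : Submodule ℝ A) (v : E) (e : Fin d → A) (Γ : Subgroup (unitary A)) : Prop :=
  (∀ γ ∈ Γ, ∀ X ∈ 𝔤, (γ : A) * X * star (γ : A) ∈ 𝔤) ∧
    (∀ γ ∈ Γ, ∃ y : grp 𝔤, (val y * γ) • v = v) ∧
    ∀ γ ∈ Γ, ∀ y : grp 𝔤, (val y * γ) • v = v → ∀ i,
      val y * γ * e i * star (val y * γ) ∈ Submodule.span ℝ (Set.range e)

/-- `g` is the Gram matrix, in the basis `e i • v` of the tangent space at `v` of the orbit of `v`,
of an inner product invariant under every product `y γ` that fixes `v`. -/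
def IsInvMetricQ (𝔤 : Submodule ℝ A) (v : E) (e : Fin d → A) (Γ : Subgroup (unitary A))
    (g : Matrix (Fin d) (Fin d) ℝ) : Prop :=
  g.PosDef ∧ ∀ γ ∈ Γ, ∀ y : grp 𝔤, (val y * γ) • v = v → ∀ a b a' b' : Fin d → ℝ,
    (val y * γ) • (∑ i, a i • e i • v) = ∑ i, a' i • e i • v →
    (val y * γ) • (∑ i, b i • e i • v) = ∑ i, b' i • e i • v → a' ⬝ᵥ g *ᵥ b' = a ⬝ᵥ g *ᵥ b

/-- The space of smooth `Γ`-invariant functions on the orbit of `v`, pulled back to the group, that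
the Laplacian of the invariant metric `g` multiplies by `l`. -/
noncomputable def eigFunQ (𝔤 : Submodule ℝ A) (v : E) (e : Fin d → A)
    (Γ : Subgroup (unitary A)) (g : Matrix (Fin d) (Fin d) ℝ) (l : ℝ) : Submodule ℂ (grp 𝔤 → ℂ) :=
  Submodule.span ℂ {f | ∃ F : A → ℂ, ContDiff ℝ ∞ F ∧ (∀ x, f x = F (val x)) ∧
    (∀ γ ∈ Γ, ∀ x y : grp 𝔤, (γ : A) • val x • v = val y • v → f x = f y) ∧
    ∀ x : grp 𝔤, -∑ i, ∑ j, (g⁻¹ i j : ℂ) * dir (e i) (dir (e j) F) (val x) = l * F (val x)}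

/-- The invariant metrics whose `l`-eigenspace on the quotient by `Γ` has dimension `m l` for every
real `l`. -/
def isoSetQ (𝔤 : Submodule ℝ A) (v : E) (e : Fin d → A) (Γ : Subgroup (unitary A))
    (m : ℝ → ℕ) : Set (Matrix (Fin d) (Fin d) ℝ) :=
  {g | IsInvMetricQ 𝔤 v e Γ g ∧ ∀ l : ℝ, Module.rank ℂ (eigFunQ 𝔤 v e Γ g l) = m l}

end Pool.Agent.Lib.MP_1a4aff_gt
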