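import Pool.Agent.Lib.MP_1a4aff_gt.LH.Act
import Pool.Agent.Lib.MP_1a4aff_gt.LH.Alg

/-!
The family of Laplacians on functions invariant under a finite subgroup.
-/

open NormedSpace MeasureTheory Module Filter Topology
open scoped Matrix ComplexConjugate

set_option linter.unusedSectionVars false

namespace Pool.Agent.Lib.MP_1a4aff_gt

variable {A E : Type*} [NormedRing A] [NormedAlgebra ℝ A] [StarRing A] [CStarRing A]
  [CompleteSpace A] [FiniteDimensional ℝ A] [NormedAddCommGroup E] [InnerProductSpace ℝ E]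
  [FiniteDimensional ℝ E] [Module A E] [IsScalarTower ℝ A E] {d : ℕ}

namespace Dat

variable {D : Dat A}

theorem linv_of_der {W : Submodule ℂ D.H} [FiniteDimensional ℂ W]
    (h : ∀ X : D.g, ∀ g ∈ W, der X 0 g ∈ W) : LInv W := by
  have key : ∀ X : D.g, ∀ f ∈ W, act (ex X)⁻¹ 1 f ∈ W := fun X f hf => by
    have := FiniteDimensional.complete ℂ W
    let B : W →L[ℂ] W := LinearMap.toContinuousLinearMap ((der X 0).restrict (h X))
    obtain ⟨Z, hZ0, hZ⟩ := exists_flow ((-B).restrictScalars ℝ) ⟨f, hf⟩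
    let b := Module.finBasis ℂ W
    have h0 : ∀ w : W, (w : D.H) = ∑ k, b.coord k w • (b k : D.H) := fun w => by
      have h0 := congrArg W.subtype (b.sum_repr w).symm
      rw [map_sum] at h0
      exact h0
    have h1 : ∀ (w : W) y, cm (w : D.H) y = ∑ k, b.coord k w * cm (b k : D.H) y := fun w y => by
      conv_lhs => rw [h0 w]
      simp only [map_sum, map_smul, ContinuousMap.sum_apply, ContinuousMap.smul_apply, smul_eq_mul]
    have h2 : ∀ (w : W) y, cm (der X 0 (w : D.H)) y =
        ∑ k, b.coord k w * cm (der X 0 (b k : D.H)) y := fun w y => by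
      conv_lhs => rw [h0 w]
      simp only [map_sum, map_smul, ContinuousMap.sum_apply, ContinuousMap.smul_apply, smul_eq_mul]
    have h3 : act (ex X) 1 (Z 1 : D.H) = f := ext' fun x => by
      have h4 : ∀ t : ℝ, HasDerivAt
          (fun s : ℝ => cm (Z s : D.H) (ex (s • X) * x * ex (s • (0 : D.g)))) 0 t := fun t => by
        simp only [h1 (Z _)]
        have h5 := HasDerivAt.fun_sum (u := Finset.univ) fun k _ =>
          (((LinearMap.toContinuousLinearMap (b.coord k)).restrictScalars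
            ℝ).hasFDerivAt.comp_hasDerivAt t (hZ t)).fun_mul
            (hasDerivAt_curve (b k : D.H) (hasDerivAt_flow X 0 x t))
        refine HasDerivAt.congr_deriv (f' := _) h5 (Eq.symm ?_)
        · have h6 := h1 (B (Z t)) (ex (t • X) * x * ex (t • (0 : D.g)))
          have h7 := h2 (Z t) (ex (t • X) * x * ex (t • (0 : D.g)))
          have h8 := h6.symm.trans h7
          rw [Finset.sum_add_distrib]
          simp only [Function.comp_apply, ContinuousLinearMap.coe_restrictScalars',
            neg_apply, LinearMap.coe_toContinuousLinearMap', map_neg,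
            neg_mul, Finset.sum_neg_distrib, h8, neg_add_cancel]
      have h9 := is_const_of_deriv_eq_zero (fun t => (h4 t).differentiableAt)
        (fun t => (h4 t).deriv) 1 0
      simpa [hZ0] using h9
    rw [← h3, act_act]
    simp
  intro y
  induction y using ind with
  | h1 => simp
  | h X x ih =>
    intro f hf
    have h1 := ih _ (key (-X) f hf)
    rw [ex_neg, inv_inv, act_act] at h1
    simpa using h1

theorem der_mem_span (X : D.g) : der X 0 ∈
    Submodule.span ℂ (Set.range fun i => der (Module.finBasis ℝ D.g i) 0) := by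
  have hX : X ∈ Submodule.span ℝ (Set.range (Module.finBasis ℝ D.g)) := by simp
  induction hX using Submodule.span_induction with
  | mem X hX =>
    obtain ⟨i, rfl⟩ := hX
    exact Submodule.subset_span ⟨i, rfl⟩
  | zero =>
    have h0 : der (0 : D.g) 0 = 0 := by simpa using der_smul 0 (0 : D.g) 0
    rw [h0]
    exact zero_mem _
  | add X Y _ _ h1 h2 =>
    have h0 := der_add X 0 Y 0
    rw [add_zero] at h0
    rw [h0]
    exact add_mem h1 h2
  | smul c X _ h =>
    have h0 := der_smul c X 0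
    rw [smul_zero] at h0
    rw [h0]
    exact Submodule.smul_mem _ _ h

end Dat

namespace Orb

open Dat

theorem lap_derL (O : Orb A E d) (B : Matrix (Fin d) (Fin d) ℝ) (X : O.g) (f : O.H) :
    O.lap B (der X 0 f) = der X 0 (O.lap B f) := by
  have h0 : der (0 : O.g) 0 = 0 := by simpa using der_smul 0 (0 : O.g) 0
  have h : ∀ X Y : O.g, Commute (der 0 Y) (der X 0) := fun X Y => LinearMap.ext fun f => by
    have := der_comm (X := 0) (Y := Y) (X' := X) (Y' := 0) (Z := 0) (W := 0) (by simp) (by simp) f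
    rwa [h0, LinearMap.zero_apply, sub_eq_zero] at this
  have h1 : Commute (O.lap B) (der X 0) := Commute.sum_left _ _ _ fun s _ =>
    (((h _ _).mul_left (h _ _)).neg_left).smul_left _
  exact LinearMap.congr_fun h1 f

end Orb

namespace Cov

open Dat Orb

variable {O : Orb A E d} (C : Cov O)

/-- Invariant functions. -/
def Iv : Submodule ℂ O.H where
  carrier := {f | ∀ γ : C.Γ, pi γ f = f}
  add_mem' hf hg γ := by rw [map_add, hf γ, hg γ]
  zero_mem' γ := map_zero _
  smul_mem' c f hf γ := by rw [map_smul, hf γ]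

variable [Fintype C.Γ]

theorem sum_mem_Iv {f : O.H} (hf : f ∈ O.H0) : ∑ γ : C.Γ, pi γ f ∈ C.Iv := fun γ' => by
  rw [map_sum]
  exact Fintype.sum_equiv (Equiv.mulRight γ') _ _ fun γ => pi_pi _ _ hf

theorem exists_cG (N : ℕ) : ∃ c : ℕ, ∀ S : Submodule ℂ O.H, S ≤ O.H0.toSubmodule →
    (∀ γ : C.Γ, ∀ g ∈ S, pi γ g ∈ S) →
    (∀ X : O.g, ∀ g ∈ S, der X 0 g ∈ S) → FiniteDimensional ℂ (S ⊓ C.Iv : Submodule ℂ O.H) →
    finrank ℂ (S ⊓ C.Iv : Submodule ℂ O.H) ≤ N → ∀ f ∈ S ⊓ C.Iv, f ∈ O.U c := by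
  obtain ⟨c, hc⟩ := LH.exists_c (r := fun i => der (Module.finBasis ℝ O.g i) 0)
    (s := fun b : _ × C.Γ => der (adG b.2⁻¹ (Module.finBasis ℝ O.g b.1)) 0) (γ0 := 1)
    (fun i => by simp only [inv_one, adG_one]) (fun b => der_mem_span _)
    (fun b b' => by
      have h : ∀ X X' : O.g, der X 0 * der X' 0 - der X' 0 * der X 0 = der (br X' X) 0 :=
        fun X X' => LinearMap.ext fun f => der_comm rfl (by simp) f
      rw [h]
      exact der_mem_span _) N
  refine ⟨c, fun S h0 h1 h2 h3 h4 f hf => ?_⟩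
  obtain ⟨W, h5, h6, h7, h8, h9⟩ := hc f _ h3 h4 fun i j => by
    have h5 : ∀ γ : C.Γ, (der (adG γ⁻¹ (Module.finBasis ℝ O.g i)) 0 ^ j) f =
        pi γ ((der (Module.finBasis ℝ O.g i) 0 ^ j) f) := fun γ => by
      induction j with
      | zero => simpa using (hf.2 γ).symm
      | succ j ih =>
        rw [pow_succ', pow_succ', Module.End.mul_apply, Module.End.mul_apply, ih, pi_derL]
    have h6 : (der (Module.finBasis ℝ O.g i) 0 ^ j) f ∈ S := by
      clear h5
      induction j with
      | zero => simpa using hf.1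
      | succ j ih =>
        rw [pow_succ', Module.End.mul_apply]
        exact h2 _ _ ih
    simp only [h5]
    exact ⟨sum_mem fun γ _ => h1 _ _ h6, C.sum_mem_Iv (h0 h6)⟩
  exact le_U W ⟨h5, h6, linv_of_der fun X g hg => h8 _ (der_mem_span X) g hg,
    (h9 S hf.1 fun i => h2 _).trans h0⟩ h7

/-- A monotone bound. -/
noncomputable def cG (N : ℕ) : ℕ := ∑ t ∈ Finset.range (N + 1), (C.exists_cG t).choose + N

theorem cG_mono : Monotone C.cG := fun _ _ h => add_le_add
  (Finset.sum_le_sum_of_subset (Finset.range_mono (Nat.succ_le_succ h))) h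

theorem le_cG (N : ℕ) : (C.exists_cG N).choose ≤ C.cG N :=
  (Finset.single_le_sum (f := fun t => (C.exists_cG t).choose) (fun _ _ => Nat.zero_le _)
    (Finset.self_mem_range_succ N)).trans (Nat.le_add_right _ _)

/-- The family of Laplacians on invariant functions. -/
noncomputable def fam : Fam O.H (Fin d × Fin d) (Matrix (Fin d) (Fin d) ℝ) where
  t := O.fam.t
  a := O.fam.a
  adm := C.adm
  H0 := O.H0.toSubmodule ⊓ C.Iv
  U N := O.U (C.cG N) ⊓ C.Iv
  symm _ hB := O.lap_symm hB.1
  fin _ := Submodule.finiteDimensional_of_le inf_le_left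
  le _ := inf_le_inf_right _ (O.U_le _)
  inv N B hB f hf := ⟨O.fam.inv _ B (adm_le hB) f hf.1, fun γ =>
    (lap_pi hB γ f).symm.trans (congrArg _ (hf.2 γ))⟩
  mono _ _ h := inf_le_inf_right _ (O.U_mono (C.cG_mono h))
  dense g hg h := O.dense hg.1 fun N f hf => by
    have h1 := h N _ ⟨O.U_mono (Nat.le_add_left _ _)
      (sum_mem fun (γ : C.Γ) _ => pi_U γ N f hf), C.sum_mem_Iv (O.U_le N hf)⟩
    have h2 : ∀ γ : C.Γ, inner ℂ (pi γ f) g = inner ℂ f g := fun γ => by
      rw [← inner_pi γ f g, hg.2 γ]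
    rw [sum_inner] at h1
    simpa [h2] using h1

theorem spec_iff {B : Matrix (Fin d) (Fin d) ℝ} (hB : B ∈ C.adm) (m : ℝ → ℕ) :
    C.fam.Spec (fun l => if l.im = 0 then m l.re else 0) B ↔ ∀ l : ℝ, Module.rank ℂ
      (O.H0.toSubmodule ⊓ C.Iv ⊓ (O.lap B).eigenspace l : Submodule ℂ O.H) = m l := by
  refine ⟨fun h l => ?_, fun h => ⟨hB, fun l => ?_⟩⟩
  · obtain ⟨h1, h2⟩ := h.2 l
    have := C.fam.fin (if (l : ℂ).im = 0 then m (l : ℂ).re else 0)
    have : FiniteDimensional ℂ
        (O.H0.toSubmodule ⊓ C.Iv ⊓ (O.lap B).eigenspace l : Submodule ℂ O.H) :=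
      Submodule.finiteDimensional_of_le h1
    rw [← Module.finrank_eq_rank]
    exact congrArg Nat.cast (h2.trans (by simp))
  by_cases hl : l.im = 0
  · obtain ⟨l, rfl⟩ : ∃ r : ℝ, l = r := ⟨l.re, Complex.ext rfl hl⟩
    have h1 := Module.finrank_eq_of_rank_eq (h l)
    have h2 := Module.finite_of_rank_eq_nat (h l)
    simp only [Complex.ofReal_im, if_true, Complex.ofReal_re]
    refine ⟨fun f hf => ⟨?_, hf.1.2⟩, h1⟩
    rw [inf_right_comm] at h1 h2
    exact O.U_mono (C.le_cG _) ((C.exists_cG (m l)).choose_spec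
      (O.H0.toSubmodule ⊓ (O.lap B).eigenspace l) inf_le_left (fun γ f hf => ⟨pi_mem γ hf.1, by
        refine Module.End.mem_eigenspace_iff.2 ((lap_pi hB γ f).trans ?_)
        rw [show O.lap B f = _ from Module.End.mem_eigenspace_iff.1 hf.2, map_smul]⟩)
      (fun X f hf => ⟨mem_H0.2 fun k hk => by
        rw [act_der (X' := X) (Y' := 0) (by simp) (by simp) f, mem_H0.1 hf.1 k hk], by
        refine Module.End.mem_eigenspace_iff.2 ((O.lap_derL B X f).trans ?_)
        rw [show O.lap B f = _ from Module.End.mem_eigenspace_iff.1 hf.2, map_smul]⟩)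
      h2 h1.le f ⟨⟨hf.1.1, hf.2⟩, hf.1.2⟩)
  · have h1 : (C.fam.op B).eigenspace l = ⊥ := by
      by_contra h1
      exact hl (Complex.conj_eq_iff_im.1 ((O.lap_symm hB.1).conj_eigenvalue_eq_self h1))
    simp only [mul, hl, if_false]
    rw [h1, inf_bot_eq, finrank_bot]
    exact ⟨bot_le, rfl⟩

end Cov

end Pool.Agent.Lib.MP_1a4aff_gt
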