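import Pool.Agent.Results.MP_1a4aff_gt.LocHomog

open Pool.Agent.Lib.MP_1a4aff_gt

/-- The former hand-in `Homogeneous` is the case of the trivial group. -/
theorem Pool.Agent.Lib.MP_1a4aff_gt.LH.homogeneous {E : Type} [NormedAddCommGroup E]
    [InnerProductSpace ℝ E] [FiniteDimensional ℝ E] [CompleteSpace E] {d : ℕ}
    (𝔤 : Submodule ℝ (E →L[ℝ] E)) (h𝔤 : IsCompactSemisimple 𝔤) (v : E) (e : Fin d → E →L[ℝ] E)
    (he : IsFrame 𝔤 v e) (m : ℝ → ℕ) : IsCompact (isoSet 𝔤 v e m) := by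
  have h := Pool.Agent.Results.MP_1a4aff_gt.LocHomog.result 𝔤 h𝔤 v e he ⊥
    ⟨by simp, fun γ hγ => ⟨1, by simp [Subgroup.mem_bot.1 hγ]⟩, fun γ hγ y hy i => by
      simp only [Subgroup.mem_bot.1 hγ, OneMemClass.coe_one, mul_one] at hy ⊢
      exact he.2.2.2 y hy i⟩ (fun γ hγ _ => Subgroup.mem_bot.1 hγ) m
  have h1 : ∀ g l, eigFun 𝔤 v e g l = eigFunQ 𝔤 v e ⊥ g l := fun g l => by
    simp only [eigFun, eigFunQ, Subgroup.mem_bot, forall_eq, OneMemClass.coe_one, one_smul]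
  have h2 : ∀ g, IsInvMetric 𝔤 v e g ↔ IsInvMetricQ 𝔤 v e ⊥ g := fun g => by
    simp only [IsInvMetric, IsInvMetricQ, Subgroup.mem_bot, forall_eq, OneMemClass.coe_one,
      mul_one]
  have h3 : isoSet 𝔤 v e m = isoSetQ 𝔤 v e ⊥ m := Set.ext fun g =>
    and_congr (h2 g) (forall_congr' fun l => by rw [h1])
  rwa [h3]
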