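import Pool.Agent.Lib.MP_1a4aff_gt.Lap

/-!
Positivity of the cometric from an inequality with exponentially small error.
-/

open NormedSpace MeasureTheory Module Filter Topology
open scoped Matrix ComplexConjugate

set_option linter.unusedSectionVars false

namespace Pool.Agent.Lib.MP_1a4aff_gt

theorem exists_integral_neg' {X : Type*} [TopologicalSpace X] [CompactSpace X] [MeasurableSpace X]
    [BorelSpace X] (μ : Measure X) [IsProbabilityMeasure μ] [μ.IsOpenPosMeasure] {q h : X → ℝ}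
    (hq : Continuous q) (hh : Continuous h) (h0 : ∀ x, 0 ≤ q x) {x0 : X} (h1 : 0 < q x0)
    (h2 : ∀ x, q x0 ≤ q x → h x < 0) {ρ : ℝ} (hρ0 : 0 ≤ ρ) (hρ : ρ < q x0) (C' : ℝ) :
    ∃ j : ℕ, ∫ x, q x ^ j * h x ∂μ + ρ ^ j * C' < 0 := by
  have hi : ∀ {f : X → ℝ}, Continuous f → Integrable f μ := fun hf =>
    hf.integrable_of_hasCompactSupport (HasCompactSupport.of_compactSpace _)
  obtain ⟨r, hr0, hr1, hr⟩ : ∃ r, ρ ≤ r ∧ r < q x0 ∧ ∀ x, 0 ≤ h x → q x ≤ r := by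
    rcases {x | 0 ≤ h x}.eq_empty_or_nonempty with he | he
    · exact ⟨ρ, le_rfl, hρ, fun x hx => (Set.eq_empty_iff_forall_notMem.1 he x hx).elim⟩
    · obtain ⟨y, hy, hy'⟩ := (isClosed_le continuous_const hh).isCompact.exists_isMaxOn he
        hq.continuousOn
      exact ⟨max ρ (q y), le_max_left _ _, max_lt hρ (not_le.1 fun h3 => (h2 y h3).not_ge hy),
        fun x hx => le_max_of_le_right (hy' hx)⟩
  have hρr : ∀ j : ℕ, ρ ^ j * C' ≤ r ^ j * |C'| := fun j =>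
    (mul_le_mul_of_nonneg_left (le_abs_self _) (pow_nonneg hρ0 j)).trans
      (mul_le_mul_of_nonneg_right (pow_le_pow_left₀ hρ0 hr0 j) (abs_nonneg _))
  replace hr0 : 0 ≤ r := hρ0.trans hr0
  obtain ⟨s, hrs, hs⟩ := exists_between hr1
  obtain ⟨C, hC⟩ := (isCompact_range hh).bddAbove
  have hs0 : 0 < s := hr0.trans_lt hrs
  let ψ : X → ℝ := fun x => min (max (q x - s) 0) (max (-h x) 0)
  have hψ : 0 < ∫ x, ψ x ∂μ :=
    Continuous.integral_pos_of_hasCompactSupport_nonneg_nonzero (x := x0) (by fun_prop)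
      (HasCompactSupport.of_compactSpace _) (fun x => by positivity)
      (lt_min (lt_max_of_lt_left (sub_pos.2 hs))
        (lt_max_of_lt_left (neg_pos.2 (h2 x0 le_rfl)))).ne'
  obtain ⟨j, hj⟩ := (((tendsto_pow_atTop_nhds_zero_of_lt_one (div_nonneg hr0 hs0.le)
    ((div_lt_one hs0).2 hrs)).mul_const (|C| + |C'|)).eventually
      (gt_mem_nhds (by rwa [zero_mul]))).exists
  refine ⟨j, lt_of_le_of_lt (add_le_add (integral_mono (g := fun x => r ^ j * |C| - s ^ j * ψ x)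
    (hi (by fun_prop)) (hi (by fun_prop)) fun x => ?_) (hρr j)) ?_⟩
  · have h3 : 0 ≤ r ^ j * |C| := by positivity
    have h4 : 0 ≤ q x ^ j := pow_nonneg (h0 x) j
    rcases le_or_gt 0 (h x) with hx | hx
    · have h5 : ψ x = 0 := by simp [ψ, hx]
      simp only [h5, mul_zero, sub_zero]
      exact mul_le_mul (pow_le_pow_left₀ (h0 x) (hr x hx) j)
        ((hC ⟨x, rfl⟩).trans (le_abs_self C)) hx (by positivity)
    rcases le_or_gt (q x) s with hx' | hx'
    · have h5 : ψ x = 0 := by simp [ψ, hx']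
      simp only [h5, mul_zero, sub_zero]
      nlinarith
    · have h5 : ψ x ≤ -h x := (min_le_right _ _).trans (max_le le_rfl (by linarith))
      have h6 : s ^ j ≤ q x ^ j := pow_le_pow_left₀ hs0.le hx'.le j
      have h7 : 0 < s ^ j := by positivity
      simp only
      nlinarith
  · rw [integral_sub (hi (by fun_prop)) (hi (by fun_prop)), integral_const_mul (s ^ j)]
    rw [div_pow, div_mul_eq_mul_div, div_lt_iff₀ (by positivity)] at hj
    simp
    linarith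


variable {A E : Type*} [NormedRing A] [NormedAlgebra ℝ A] [StarRing A] [CStarRing A]
  [CompleteSpace A] [FiniteDimensional ℝ A] [NormedAddCommGroup E] [InnerProductSpace ℝ E]
  [FiniteDimensional ℝ E] [Module A E] [IsScalarTower ℝ A E] {d : ℕ}

namespace Orb

open Dat

variable (O : Orb A E d)

theorem cross_le {p p' : O.H} {ρ : ℝ} (h : ∀ x, ‖cm p x‖ * ‖cm p' x‖ ≤ ρ) (X Y X' Y' : O.g)
    (j : ℕ) : ‖inner ℂ (der X Y (p ^ (j + 1))) (der X' Y' (p' ^ (j + 1)))‖ ≤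
      ((j : ℝ) + 1) ^ 2 * (ρ ^ j * (‖cm (der X Y p)‖ * ‖cm (der X' Y' p')‖)) := by
  rw [inner_def]
  refine (norm_integral_le_of_norm_le_const (C := ((j : ℝ) + 1) ^ 2 *
    (ρ ^ j * (‖cm (der X Y p)‖ * ‖cm (der X' Y' p')‖))) (.of_forall fun x => ?_)).trans (by simp)
  have h1 : ‖(j : ℂ) + 1‖ = (j : ℝ) + 1 := by
    rw [← Nat.cast_succ, Complex.norm_natCast, Nat.cast_succ]
  have h2 := pow_le_pow_left₀ (by positivity) (h x) j
  have h3 := mul_le_mul ((cm (der X Y p)).norm_coe_le_norm x)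
    ((cm (der X' Y' p')).norm_coe_le_norm x) (norm_nonneg _) (norm_nonneg _)
  have h4 := mul_le_mul h2 h3 (by positivity) ((by positivity : (0 : ℝ) ≤ _).trans h2)
  simp only [der_pow, map_smul, map_mul, map_pow, ContinuousMap.smul_apply,
    ContinuousMap.mul_apply, ContinuousMap.pow_apply, smul_eq_mul, norm_mul, Complex.norm_conj,
    norm_pow, h1]
  refine le_of_eq_of_le ?_ (mul_le_mul_of_nonneg_left h4 (by positivity))
  ring

theorem cross_form {p p' : O.H} {ρ : ℝ} (hρ : 0 ≤ ρ) (h : ∀ x, ‖cm p x‖ * ‖cm p' x‖ ≤ ρ)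
    (B : Matrix (Fin d) (Fin d) ℝ) (a : ℝ) : ∃ C, 0 ≤ C ∧ ∀ j : ℕ,
      (inner ℂ (p ^ (j + 1)) (O.lap B (p' ^ (j + 1)))).re -
        a * (inner ℂ (p ^ (j + 1)) (O.aux (p' ^ (j + 1)))).re ≤ ((j : ℝ) + 1) ^ 2 * (ρ ^ j * C) := by
  refine ⟨∑ i, ∑ k, |B i k| * (‖cm (der 0 (O.e i) p)‖ * ‖cm (der 0 (O.e k) p')‖) +
    |a| * ∑ i, ‖cm (der (O.e i) 0 p)‖ * ‖cm (der (O.e i) 0 p')‖, by positivity, fun j => ?_⟩
  have h1 : ‖inner ℂ (p ^ (j + 1)) (O.lap B (p' ^ (j + 1)))‖ ≤ ((j : ℝ) + 1) ^ 2 * (ρ ^ j *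
      ∑ i, ∑ k, |B i k| * (‖cm (der 0 (O.e i) p)‖ * ‖cm (der 0 (O.e k) p')‖)) := by
    rw [inner_lap]
    simp only [Finset.mul_sum]
    refine norm_sum_le_of_le _ fun i _ => norm_sum_le_of_le _ fun k _ => ?_
    rw [norm_mul, Complex.norm_real, Real.norm_eq_abs]
    refine (mul_le_mul_of_nonneg_left (O.cross_le h _ _ _ _ j) (abs_nonneg _)).trans_eq ?_
    ring
  have h2 : ‖inner ℂ (p ^ (j + 1)) (O.aux (p' ^ (j + 1)))‖ ≤ ((j : ℝ) + 1) ^ 2 * (ρ ^ j *
      ∑ i, ‖cm (der (O.e i) 0 p)‖ * ‖cm (der (O.e i) 0 p')‖) := by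
    rw [inner_aux]
    simp only [Finset.mul_sum]
    exact norm_sum_le_of_le _ fun i _ => O.cross_le h _ _ _ _ j
  have h3 := (Complex.re_le_norm _).trans h1
  have h4 := mul_le_mul_of_nonneg_left ((Complex.abs_re_le_norm _).trans h2) (abs_nonneg a)
  rw [← abs_mul] at h4
  have h5 := (neg_le_abs _).trans h4
  calc _ ≤ _ := add_le_add h3 h5
    _ = _ := by ring

theorem posDef_of' {B : Matrix (Fin d) (Fin d) ℝ} (hB : B ∈ O.adm) {a : ℝ} (ha : 0 < a)
    (h : ∀ p ∈ O.Rep, (∀ x, ‖cm p 1‖ ^ 2 ≤ ‖cm p x‖ ^ 2 → val x • O.v = O.v) →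
      0 < ‖cm p 1‖ ^ 2 → ∃ ρ C : ℝ, 0 ≤ ρ ∧ ρ < ‖cm p 1‖ ^ 2 ∧ ∀ j : ℕ,
        a * (inner ℂ (p ^ (j + 1)) (O.aux (p ^ (j + 1)))).re ≤
          (inner ℂ (p ^ (j + 1)) (O.lap B (p ^ (j + 1)))).re + ((j : ℝ) + 1) ^ 2 * (ρ ^ j * C)) :
    B.PosDef := by
  refine .of_dotProduct_mulVec_pos hB.1 fun ξ hξ => not_le.1 fun hneg => ?_
  have hsk : ∀ X : O.g, inner ℝ O.v ((X : A) • O.v) = 0 := fun X => by
    have h1 := O.adj X O.v O.v
    rw [O.skew _ X.2, neg_smul, inner_neg_left, real_inner_comm] at h1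
    linarith
  have hv : 0 < ‖O.v‖ := by
    obtain ⟨i, -⟩ := Function.ne_iff.1 hξ
    exact norm_pos_iff.2 fun h0 => O.li.ne_zero i (by simp [h0])
  obtain ⟨w, ε, hε, hw0, hw1, hw2⟩ : ∃ (w : E) (ε : ℝ), 0 < ε ∧ inner ℝ w O.v = 0 ∧
      2 * ‖w‖ ≤ ‖O.v‖ ∧ ∀ i, inner ℝ w ((O.e i : A) • O.v) = ε * ξ i := by
    obtain ⟨η, hη⟩ := Matrix.vecMul_surjective_iff_isUnit.2 O.posDef_gram.isUnit ξ
    set w := ∑ j, η j • (O.e j : A) • O.v with hw
    refine ⟨(‖O.v‖ / (2 * ‖w‖ + 1)) • w, ‖O.v‖ / (2 * ‖w‖ + 1), by positivity, ?_, ?_, fun i => ?_⟩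
    · rw [real_inner_comm]
      simp [hw, inner_smul_right, inner_sum, hsk]
    · rw [norm_smul, Real.norm_of_nonneg (by positivity), ← mul_assoc, ← mul_div_assoc,
        div_mul_eq_mul_div, div_le_iff₀ (by positivity)]
      nlinarith
    · rw [real_inner_smul_left, ← hη]
      congr 1
      simp [hw, sum_inner, inner_smul_left, Matrix.vecMul, dotProduct]
  let p : O.H := O.co O.v * 1 + Complex.I • O.co w + algebraMap ℂ _ ((‖O.v‖ ^ 2 : ℝ) : ℂ)
  have hp : p ∈ O.Rep := add_mem (add_mem (mul_mem (O.co_mem _) (one_mem _))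
    (O.Rep.smul_mem (O.co_mem _) _)) (O.Rep.algebraMap_mem _)
  have hp1 : ∀ x, ‖cm p x‖ ^ 2 = (inner ℝ O.v (val x • O.v) + ‖O.v‖ ^ 2) ^ 2 +
      inner ℝ w (val x • O.v) ^ 2 := fun x => by
    rw [Complex.sq_norm, Complex.normSq_apply]
    simp [p, pow_two]
  have hp2 : ∀ X Y x, cm (der X Y p) x = (inner ℝ O.v ((X * val x + val x * Y) • O.v) : ℝ) +
      Complex.I * (inner ℝ w ((X * val x + val x * Y) • O.v) : ℝ) := fun X Y x => by
    have h1 : der X Y (1 : O.H) = 0 := by simpa using der_mul X Y 1 1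
    simp only [p, mul_one, map_add, map_smul, Algebra.algebraMap_eq_smul_one, h1, smul_zero,
      add_zero, ContinuousMap.add_apply, ContinuousMap.smul_apply, cm_der_co, smul_eq_mul]
  have hK : ∀ x, ‖cm p 1‖ ^ 2 ≤ ‖cm p x‖ ^ 2 → val x • O.v = O.v := fun x hx => by
    simp only [hp1, val_one, one_smul, real_inner_self_eq_norm_sq, hw0] at hx
    have h1 : ‖val x • O.v‖ ^ 2 = ‖O.v‖ ^ 2 := by
      rw [← real_inner_self_eq_norm_sq, O.inner_val, real_inner_self_eq_norm_sq]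
    have h2 := norm_sub_sq_real (val x • O.v) O.v
    have h3 := abs_real_inner_le_norm w (val x • O.v - O.v)
    rw [inner_sub_right, hw0, sub_zero] at h3
    have h4 := pow_le_pow_left₀ (abs_nonneg _) h3 2
    have h5 := pow_le_pow_left₀ (by positivity) hw1 2
    have h6 := norm_sub_le (val x • O.v) O.v
    rw [sq_abs, mul_pow] at h4
    rw [real_inner_comm, h1] at h2
    rw [(sq_eq_sq₀ (norm_nonneg _) (norm_nonneg _)).1 h1] at h6
    have h7 := pow_le_pow_left₀ (norm_nonneg _) h6 2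
    rw [← sub_eq_zero, ← norm_eq_zero, ← pow_eq_zero_iff two_ne_zero]
    have h9 := sq_nonneg ‖val x • O.v - O.v‖
    generalize ‖val x • O.v - O.v‖ ^ 2 = δ at *
    have h8 : 0 < ‖O.v‖ ^ 2 := by positivity
    have h10 : inner ℝ O.v (val x • O.v) = ‖O.v‖ ^ 2 - δ / 2 := by linarith
    rw [h10] at hx
    have h11 : δ ≤ 4 * ‖O.v‖ ^ 2 := by linarith
    have h12 : 4 * ‖w‖ ^ 2 ≤ ‖O.v‖ ^ 2 := by linarith
    have h13 : ‖O.v‖ ^ 2 * δ ≤ 0 := by
      nlinarith [mul_le_mul_of_nonneg_right h11 h9, mul_le_mul_of_nonneg_right h12 h9]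
    exact le_antisymm (nonpos_of_mul_nonpos_right h13 h8) h9
  have hq : 0 < ‖cm p 1‖ ^ 2 := by
    simp only [hp1, val_one, one_smul, real_inner_self_eq_norm_sq]
    positivity
  obtain ⟨ρ, C, hρ0, hρ, hC⟩ := h p hp hK hq
  obtain ⟨j, hj⟩ := exists_integral_neg' O.μ (q := fun x => ‖cm p x‖ ^ 2) (h := fun x =>
    ∑ i, ∑ k, B i k * (cm (der 0 (O.e k) p) x * conj (cm (der 0 (O.e i) p) x)).re -
      a * ∑ i, (cm (der (O.e i) 0 p) x * conj (cm (der (O.e i) 0 p) x)).re)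
    (by fun_prop) (by fun_prop) (fun x => by positivity) (x0 := 1) hq (fun x hx => by
    have hx' := hK x hx
    obtain ⟨T, hT⟩ := O.exists_T hx'
    have h1 : ∀ i, cm (der 0 (O.e i) p) x = Complex.I * (∑ l, T l i * (ε * ξ l) : ℝ) :=
      fun i => by
        rw [hp2]
        simp [mul_smul, O.smul_T hx' hT, inner_sum, inner_smul_right, hsk, hw2]
    have h2 : ∀ i, cm (der (O.e i) 0 p) x = Complex.I * ((ε * ξ i : ℝ) : ℂ) := fun i => by
      rw [hp2]
      simp [mul_smul, hx', hsk, hw2]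
    have h3 := sum_conj B T fun l => ((ε * ξ l : ℝ) : ℂ)
    rw [hB.2 x hx' T hT] at h3
    simp only [smul_eq_mul] at h3
    norm_cast at h3
    have h4 : ∀ s t : ℝ, (Complex.I * s * conj (Complex.I * t)).re = t * s := fun s t => by
      simp [mul_comm]
    simp only [h1, h2, h4, h3]
    have h5 : ∑ k, ∑ l, B k l * (ε * ξ k * (ε * ξ l)) = ε ^ 2 * (star ξ ⬝ᵥ B *ᵥ ξ) := by
      simp only [dotProduct, Matrix.mulVec, Finset.mul_sum, star_trivial]
      exact Finset.sum_congr rfl fun k _ => Finset.sum_congr rfl fun l _ => by ring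
    obtain ⟨i, hi⟩ := Function.ne_iff.1 hξ
    have h6 : 0 < ∑ k, ε * ξ k * (ε * ξ k) := Finset.sum_pos' (fun k _ => mul_self_nonneg _)
      ⟨i, Finset.mem_univ _, mul_self_pos.2 (mul_ne_zero hε.ne' hi)⟩
    rw [h5]
    nlinarith [mul_pos ha h6, mul_nonneg (sq_nonneg ε) (neg_nonneg.2 hneg)]) hρ0 hρ C
  have h1 := hC j
  rw [re_inner_lap, inner_aux, Complex.re_sum] at h1
  simp only [re_inner_pow] at h1
  simp only [mul_sub, Finset.mul_sum] at hj
  rw [integral_sub (integrable (by fun_prop)) (integrable (by fun_prop)),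
    integral_finsetSum _ fun i _ => integrable (by fun_prop),
    integral_finsetSum _ fun i _ => integrable (by fun_prop),
    Finset.sum_congr rfl fun i _ => integral_finsetSum _ fun k _ => integrable (by fun_prop)] at hj
  simp only [mul_left_comm _ (B _ _), mul_left_comm _ a, integral_const_mul] at hj
  simp only [mul_left_comm (B _ _), ← Finset.mul_sum, mul_left_comm a] at h1
  rw [← Finset.mul_sum] at hj
  have h2 := le_of_mul_le_mul_left (h1.trans_eq (_root_.mul_add _ _ _).symm) (by positivity)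
  linarith

end Orb

end Pool.Agent.Lib.MP_1a4aff_gt
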