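import Pool.Agent.Lib.MP_1a4aff_gt.LH.Fam
import Pool.Agent.Lib.MP_1a4aff_gt.LH.Pos

/-!
Two sided bounds for the cometric from invariant functions.
-/

open NormedSpace MeasureTheory Module Filter Topology
open scoped Matrix ComplexConjugate

set_option linter.unusedSectionVars false

namespace Pool.Agent.Lib.MP_1a4aff_gt

variable {A E : Type*} [NormedRing A] [NormedAlgebra ℝ A] [StarRing A] [CStarRing A]
  [CompleteSpace A] [FiniteDimensional ℝ A] [NormedAddCommGroup E] [InnerProductSpace ℝ E]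
  [FiniteDimensional ℝ E] [Module A E] [IsScalarTower ℝ A E] {d : ℕ}

namespace Cov

open Dat Orb

variable {O : Orb A E d} (C : Cov O) [Fintype C.Γ]

theorem Rep_le {f : O.H} (hf : f ∈ O.Rep) : f ∈ O.H0 :=
  let ⟨N, h⟩ := O.mem_Rep.1 hf
  O.U_le N h

theorem pi_Rep (γ : C.Γ) {f : O.H} (hf : f ∈ O.Rep) : pi γ f ∈ O.Rep :=
  let ⟨N, h⟩ := O.mem_Rep.1 hf
  O.mem_Rep.2 ⟨N, pi_U γ N f h⟩

theorem mem_UG {f : O.H} (hf : f ∈ O.Rep) (h : f ∈ C.Iv) : ∃ N, f ∈ C.fam.U N :=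
  let ⟨N, h1⟩ := O.mem_Rep.1 hf
  ⟨N, O.U_mono (Nat.le_add_left _ _) h1, h⟩

/-- The symmetrised auxiliary operator. -/
noncomputable def auxG : Module.End ℂ O.H :=
  ∑ γ : C.Γ, -∑ i, der (adG γ⁻¹ (O.e i)) 0 * der (adG γ⁻¹ (O.e i)) 0

theorem auxG_symm : C.auxG.IsSymmetric := fun f g => by
  simp [auxG, inner_sum, sum_inner, der_skew _ 0 f, der_skew _ 0 (der _ 0 f)]

theorem auxG_of_mem {f : O.H} (hf : f ∈ C.Iv) : C.auxG f = ∑ γ : C.Γ, pi γ (O.aux f) := by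
  rw [auxG, LinearMap.sum_apply]
  exact Finset.sum_congr rfl fun γ _ => by simp [aux, pi_derL, hf γ]

theorem auxG_mem (N : ℕ) (f : O.H) (hf : f ∈ C.fam.U N) : C.auxG f ∈ C.fam.U N := by
  rw [C.auxG_of_mem hf.2]
  exact ⟨sum_mem fun γ _ => pi_U _ _ _ (O.aux_mem _ f hf.1),
    C.sum_mem_Iv (O.U_le _ (O.aux_mem _ f hf.1))⟩

theorem lap_auxG (B : Matrix (Fin d) (Fin d) ℝ) (f : O.H) :
    O.lap B (C.auxG f) = C.auxG (O.lap B f) := by
  simp [auxG, lap_derL]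

theorem inner_auxG {f : O.H} (hf : f ∈ C.Iv) :
    inner ℂ f (C.auxG f) = Fintype.card C.Γ * inner ℂ f (O.aux f) := by
  rw [C.auxG_of_mem hf, inner_sum, Finset.sum_congr rfl fun (γ : C.Γ) _ =>
    (congrArg (inner ℂ · _) (hf γ).symm).trans (inner_pi γ f (O.aux f))]
  simp

theorem exists_gram : ∃ f : Fin d → O.H, (∀ k, f k ∈ O.Rep ∧ f k ∈ C.Iv) ∧
    (Matrix.of fun i j => ∑ k, (inner ℂ (der 0 (O.e i) (f k)) (der 0 (O.e j) (f k))).re).PosDef := by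
  classical
  have hsk : ∀ X : O.g, inner ℝ ((X : A) • O.v) O.v = 0 := fun X => by
    have h1 := O.adj X O.v O.v
    rw [O.skew _ X.2, neg_smul, inner_neg_left, real_inner_comm ((X : A) • O.v)] at h1
    linarith
  let u : O.H := ∏ γ ∈ (Finset.univ : Finset C.Γ).erase 1,
    (O.co O.v - algebraMap ℂ _ ((inner ℝ O.v (vl γ • O.v) : ℝ) : ℂ))
  have hu : u ∈ O.Rep := prod_mem fun γ _ => sub_mem (O.co_mem _) (O.Rep.algebraMap_mem _)
  have hu0 : ∀ x, cm u x = ∏ γ ∈ (Finset.univ : Finset C.Γ).erase 1,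
      ((inner ℝ O.v (val x • O.v) - inner ℝ O.v (vl γ • O.v) : ℝ) : ℂ) := fun x => by
    simp [u]
  have hu1 : ∀ γ : C.Γ, γ ≠ 1 → cm u (pt γ 1) = 0 := fun γ hγ => by
    rw [hu0, pt_smul]
    exact Finset.prod_eq_zero (Finset.mem_erase.2 ⟨hγ, Finset.mem_univ γ⟩) (by simp)
  have hu2 : cm u 1 ≠ 0 := by
    rw [hu0]
    refine Finset.prod_ne_zero_iff.2 fun γ hγ h => (Finset.mem_erase.1 hγ).1
      (Subtype.ext (C.free γ γ.2 (?_ : vl γ • O.v = O.v)))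
    rw [Complex.ofReal_eq_zero, val_one, one_smul] at h
    rw [← sub_eq_zero, ← inner_self_eq_zero (𝕜 := ℝ), inner_sub_left, inner_sub_right,
      inner_sub_right, inner_vl, real_inner_comm O.v (vl γ • O.v)]
    linarith
  have hg : ∀ k, u * u * O.co ((O.e k : A) • O.v) ∈ O.Rep := fun k =>
    mul_mem (mul_mem hu hu) (O.co_mem _)
  let f : Fin d → O.H := fun k => ∑ γ : C.Γ, pi γ (u * u * O.co ((O.e k : A) • O.v))
  have hf : ∀ k (Y : O.g), cm (der 0 Y (f k)) 1 =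
      cm u 1 * cm u 1 * (inner ℝ ((O.e k : A) • O.v) ((Y : A) • O.v) : ℝ) := fun k Y => by
    simp only [f, map_sum, ContinuousMap.sum_apply]
    rw [Finset.sum_eq_single 1 (fun γ _ hγ => by simp [der_mul, hu1 γ hγ]) (by simp),
      pi_one (Rep_le (hg k))]
    simp [der_mul, cm_der_co, hsk]
  refine ⟨f, fun k => ⟨sum_mem fun γ _ => C.pi_Rep _ (hg k),
    C.sum_mem_Iv (Rep_le (hg k))⟩, .of_dotProduct_mulVec_pos ?_ fun ξ hξ => ?_⟩
  · refine Matrix.IsHermitian.ext fun i j => ?_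
    simp only [Matrix.of_apply, star_trivial]
    exact Finset.sum_congr rfl fun k _ => inner_re_symm (𝕜 := ℂ) _ _
  have h1 : star ξ ⬝ᵥ (Matrix.of fun i j => ∑ k, (inner ℂ (der 0 (O.e i) (f k))
      (der 0 (O.e j) (f k))).re) *ᵥ ξ = ∑ k, ‖der 0 (∑ i, ξ i • O.e i) (f k)‖ ^ 2 := by
    have h3 : ∀ g : O.H, ‖g‖ ^ 2 = (inner ℂ g g).re := fun g =>
      (inner_self_eq_norm_sq (𝕜 := ℂ) g).symm
    simp only [h3, der_sum, LinearMap.sum_apply, LinearMap.smul_apply, sum_inner, inner_sum,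
      inner_smul_left, inner_smul_right, Complex.conj_ofReal, Complex.re_sum,
      Complex.re_ofReal_mul, dotProduct, Matrix.mulVec, Matrix.of_apply, star_trivial,
      Finset.mul_sum, Finset.sum_mul]
    conv_rhs => rw [Finset.sum_comm, Finset.sum_congr rfl fun i _ => Finset.sum_comm,
      Finset.sum_comm]
    refine Finset.sum_congr rfl fun i _ => Finset.sum_congr rfl fun j _ =>
      Finset.sum_congr rfl fun k _ => ?_
    ring
  rw [h1]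
  refine lt_of_le_of_ne (by positivity) fun h2 => hξ ?_
  have h3 : ∀ k, inner ℝ ((O.e k : A) • O.v) (((∑ i, ξ i • O.e i : O.g) : A) • O.v) = 0 :=
    fun k => by
      have h4 := (Finset.sum_eq_zero_iff_of_nonneg fun k _ => by positivity).1 h2.symm k
        (Finset.mem_univ k)
      have h5 := hf k (∑ i, ξ i • O.e i)
      rw [norm_eq_zero.1 (pow_eq_zero_iff two_ne_zero |>.1 h4)] at h5
      simpa [hu2] using h5.symm
  have h4 : ((∑ i, ξ i • O.e i : O.g) : A) • O.v = ∑ i, ξ i • (O.e i : A) • O.v := by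
    simp [Finset.sum_smul]
  rw [h4] at h3
  have h5 : ∑ i, ξ i • (O.e i : A) • O.v = 0 := by
    rw [← inner_self_eq_zero (𝕜 := ℝ), sum_inner]
    simp only [real_inner_smul_left, h3, mul_zero, Finset.sum_const_zero]
  exact funext (Fintype.linearIndependent_iff.1 O.li ξ h5)

theorem exists_trace_leG (B0 : Matrix (Fin d) (Fin d) ℝ) : ∃ M : ℝ, ∀ B ∈ C.adm, B.PosSemidef →
    C.fam.Iso B B0 → ∑ i, B i i ≤ M := by
  obtain ⟨f, hf, hG⟩ := C.exists_gram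
  choose n hn using fun k => C.mem_UG (hf k).1 (hf k).2
  let N := Finset.univ.sup n
  have hN : ∀ k, f k ∈ C.fam.U N := fun k =>
    C.fam.mono (Finset.le_sup (Finset.mem_univ k)) (hn k)
  obtain ⟨γ, hγ, h⟩ := exists_lower hG
  have := C.fam.fin N
  let T := LinearMap.toContinuousLinearMap (O.lap B0 ∘ₗ (C.fam.U N).subtype)
  refine ⟨(∑ k, ‖T‖ * ‖f k‖ ^ 2) / γ, fun B hB hB' hI => ?_⟩
  have h0 : ∀ (S : Module.End ℂ O.H) (f : O.H),
      (inner ℂ f (((((-1 : ℝ) : ℂ)) • S - ((-‖T‖ : ℝ) : ℂ) • 1) f)).re =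
        ‖T‖ * ‖f‖ ^ 2 - (inner ℂ f (S f)).re := fun S f => by
    simp [-Complex.coe_smul, pow_two]
    ring
  have h1 := hI.transfer hB (C.fam.good_U N) (L := ((-‖T‖ : ℝ) : ℂ) • 1)
    (LinearMap.IsSymmetric.smul (by simp) LinearMap.IsSymmetric.one)
    (fun f hf => Submodule.smul_mem _ _ hf) (fun q _ f _ => map_smul (C.fam.op q) _ f)
    (s := -1) (by simp) fun f hf => by
      rw [h0, sub_nonneg]
      refine (re_inner_le_norm (𝕜 := ℂ) _ _).trans ?_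
      have h2 : ‖O.lap B0 f‖ ≤ ‖T‖ * ‖f‖ := T.le_opNorm ⟨f, hf⟩
      calc ‖f‖ * ‖O.lap B0 f‖ ≤ ‖f‖ * (‖T‖ * ‖f‖) := by gcongr
        _ = _ := by ring
  rw [le_div_iff₀' hγ]
  refine (pair_lower h hB').trans ?_
  simp only [Matrix.of_apply, Finset.sum_mul]
  rw [Finset.sum_congr rfl fun i _ => Finset.sum_comm, Finset.sum_comm]
  refine Finset.sum_le_sum fun k _ => ?_
  have h3 := h1 _ (hN k)
  rw [h0, sub_nonneg] at h3
  refine le_of_eq_of_le ?_ h3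
  simp only [mul_comm _ (B _ _)]
  exact (O.re_inner_lap B _).symm

theorem posDef_ofG {B : Matrix (Fin d) (Fin d) ℝ} (hB : B ∈ C.adm) {a : ℝ} (ha : 0 < a)
    (h : ∀ N, ∀ f ∈ C.fam.U N,
      a * (inner ℂ f (O.aux f)).re ≤ (inner ℂ f (O.lap B f)).re) : B.PosDef := by
  classical
  have hn : (0 : ℝ) < Fintype.card C.Γ := Nat.cast_pos.2 Fintype.card_pos
  refine O.posDef_of' (adm_le hB) (div_pos ha hn) fun p hp hK hq => ?_
  have hp0 : p ∈ O.H0 := Rep_le hp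
  have h1 : ∀ x, ‖cm p x‖ ≤ ‖cm p 1‖ := fun x => by
    rcases le_total (‖cm p x‖ ^ 2) (‖cm p 1‖ ^ 2) with h1 | h1
    · exact (sq_le_sq₀ (norm_nonneg _) (norm_nonneg _)).1 h1
    · rw [hp0 x 1 (by simpa using hK x h1)]
  have h2 : ∀ s : C.Γ × C.Γ, ∃ ρ, 0 ≤ ρ ∧ ρ < ‖cm p 1‖ ^ 2 ∧ (s.1 ≠ s.2 →
      ∀ x, ‖cm (pi s.1 p) x‖ * ‖cm (pi s.2 p) x‖ ≤ ρ) := fun s => by
    by_cases hs : s.1 = s.2
    · exact ⟨0, le_rfl, hq, fun h => (h hs).elim⟩
    obtain ⟨y, -, hy⟩ := isCompact_univ.exists_isMaxOn Set.univ_nonempty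
      (f := fun x => ‖cm (pi s.1 p) x‖ * ‖cm (pi s.2 p) x‖) (by fun_prop)
    refine ⟨_, by positivity, not_le.1 fun h3 => hs ?_, fun _ x => hy (Set.mem_univ x)⟩
    simp only [cm_pi] at h3
    have h4 := h1 (pt s.1 y)
    have h5 := h1 (pt s.2 y)
    have h6 := norm_nonneg (cm p (pt s.1 y))
    have h7 := norm_nonneg (cm p (pt s.2 y))
    have h8 := hK (pt s.1 y) (by nlinarith)
    have h9 := hK (pt s.2 y) (by nlinarith)
    rw [pt_smul] at h8 h9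
    have h10 : vl (s.1 * s.2⁻¹) • O.v = O.v := by
      conv_lhs => rw [← h9, smul_smul, ← vl_mul, mul_assoc, inv_mul_cancel, mul_one, h8]
    exact mul_inv_eq_one.1 (Subtype.ext (C.free _ (s.1 * s.2⁻¹).2 h10))
  choose ρ hρ0 hρ1 hρ2 using h2
  obtain ⟨s0, hs0⟩ := Finite.exists_max ρ
  have h3 : ∀ s : C.Γ × C.Γ, ∃ K, 0 ≤ K ∧ ∀ j : ℕ, s.1 ≠ s.2 →
      (inner ℂ (pi s.1 p ^ (j + 1)) (O.lap B (pi s.2 p ^ (j + 1)))).re -
        a * (inner ℂ (pi s.1 p ^ (j + 1)) (O.aux (pi s.2 p ^ (j + 1)))).re ≤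
          ((j : ℝ) + 1) ^ 2 * (ρ s0 ^ j * K) := fun s => by
    by_cases hs : s.1 = s.2
    · exact ⟨0, le_rfl, fun _ h => (h hs).elim⟩
    obtain ⟨K, h4, h5⟩ := O.cross_form (hρ0 s0) (fun x => (hρ2 s hs x).trans (hs0 s)) B a
    exact ⟨K, h4, fun j _ => h5 j⟩
  choose K hC0 hC using h3
  refine ⟨ρ s0, (∑ γ, ∑ γ', K (γ, γ')) / Fintype.card C.Γ, hρ0 s0, hρ1 s0, fun j => ?_⟩
  obtain ⟨N, hN⟩ := C.mem_UG (sum_mem fun (γ : C.Γ) (_ : γ ∈ Finset.univ) =>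
    C.pi_Rep γ (pow_mem hp (j + 1))) (C.sum_mem_Iv (pow_mem hp0 (j + 1)))
  have h4 := h N _ hN
  have h5 : ∀ g : O.H, 0 ≤ (inner ℂ g (O.aux g)).re := fun g => by
    rw [inner_aux, Complex.re_sum]
    exact Finset.sum_nonneg fun i _ => inner_self_nonneg (𝕜 := ℂ)
  have h6 : ∀ γ : C.Γ, inner ℂ (pi γ p ^ (j + 1)) (O.lap B (pi γ p ^ (j + 1))) =
      inner ℂ (p ^ (j + 1)) (O.lap B (p ^ (j + 1))) := fun γ => by
    rw [← map_pow, lap_pi hB, inner_pi]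
  have h7 : ∀ γ γ' : C.Γ,
      (inner ℂ (pi γ p ^ (j + 1)) (O.lap B (pi γ' p ^ (j + 1)))).re -
        a * (inner ℂ (pi γ p ^ (j + 1)) (O.aux (pi γ' p ^ (j + 1)))).re ≤
      (if γ = γ' then (inner ℂ (p ^ (j + 1)) (O.lap B (p ^ (j + 1)))).re -
        a * (inner ℂ (pi γ p ^ (j + 1)) (O.aux (pi γ p ^ (j + 1)))).re else 0) +
        ((j : ℝ) + 1) ^ 2 * (ρ s0 ^ j * K (γ, γ')) := fun γ γ' => by
    split_ifs with h7
    · subst h7
      rw [h6]
      have := hρ0 s0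
      have := hC0 (γ, γ)
      exact le_add_of_nonneg_right (by positivity)
    · rw [zero_add]
      exact hC (γ, γ') j h7
  have h8 := Finset.sum_le_sum fun γ (_ : γ ∈ Finset.univ) =>
    Finset.sum_le_sum fun γ' (_ : γ' ∈ Finset.univ) => h7 γ γ'
  have h9 := Finset.single_le_sum (f := fun γ : C.Γ =>
    (inner ℂ (pi γ p ^ (j + 1)) (O.aux (pi γ p ^ (j + 1)))).re) (fun γ _ => h5 _)
    (Finset.mem_univ 1)
  simp only [Finset.sum_add_distrib, Finset.sum_sub_distrib, ← Finset.mul_sum, Finset.sum_ite_eq,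
    Finset.mem_univ, if_true, Finset.sum_const, Finset.card_univ, nsmul_eq_mul] at h8
  simp only [map_pow, map_sum, sum_inner, inner_sum, Complex.re_sum] at h4
  simp only [pi_one hp0] at h9
  rw [Finset.sum_comm, Finset.sum_comm (f := fun γ' γ : C.Γ => (inner ℂ (pi γ p ^ (j + 1))
    (O.lap B (pi γ' p ^ (j + 1)))).re)] at h4
  have h10 := mul_le_mul_of_nonneg_left h9 ha.le
  rw [div_mul_eq_mul_div, div_le_iff₀ hn, add_mul, mul_assoc, mul_assoc, div_mul_cancel₀ _ hn.ne']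
  linarith

end Cov

end Pool.Agent.Lib.MP_1a4aff_gt
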