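import Pool.Agent.Lib.MP_1a4aff_gt.Main
import Pool.Agent.Lib.MP_1a4aff_gt.LH.Tr
import Pool.Agent.Lib.MP_1a4aff_gt.LH.Defs

/-!
Compactness of the set of invariant metrics with prescribed spectrum on a finite quotient.
-/

open NormedSpace MeasureTheory Module Filter Topology
open scoped Matrix ContDiff

set_option linter.unusedSectionVars false

namespace Pool.Agent.Lib.MP_1a4aff_gt

variable {A E : Type*} [NormedRing A] [NormedAlgebra ℝ A] [StarRing A] [CStarRing A]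
  [CompleteSpace A] [FiniteDimensional ℝ A] [NormedAddCommGroup E] [InnerProductSpace ℝ E]
  [FiniteDimensional ℝ E] [Module A E] [IsScalarTower ℝ A E] {d : ℕ}

namespace Cov

open Dat Orb

variable {O : Orb A E d} (C : Cov O) [Fintype C.Γ]

theorem rank_eqG (B : Matrix (Fin d) (Fin d) ℝ) (l : ℝ) :
    Module.rank ℂ (Submodule.span ℂ {f : grp O.g → ℂ | ∃ F : A → ℂ, ContDiff ℝ ∞ F ∧
      (∀ x, f x = F (val x)) ∧
      (∀ γ ∈ C.Γ, ∀ x y : grp O.g, (γ : A) • val x • O.v = val y • O.v → f x = f y) ∧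
      ∀ x : grp O.g, -∑ i, ∑ j, (B i j : ℂ) * dir (O.e i : A) (dir (O.e j : A) F) (val x) =
        l * F (val x)}) =
    Module.rank ℂ 
      (O.H0.toSubmodule ⊓ C.Iv ⊓ (O.lap B).eigenspace l : Submodule ℂ O.H) := by
  let c : O.H →ₗ[ℂ] (grp O.g → ℂ) := ContinuousMap.coeFnLinearMap ℂ ∘ₗ cm.toLinearMap
  have hc : Function.Injective c := fun f g h => ext' (congrFun h)
  have h1 : ∀ F (hF : ContDiff ℝ ∞ F) x, cm (O.lap B (res F hF)) x =
      -∑ i, ∑ j, (B i j : ℂ) * dir (O.e i : A) (dir (O.e j : A) F) (val x) := fun F hF x => by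
    simp only [lap_eq, LinearMap.neg_apply, LinearMap.sum_apply, LinearMap.smul_apply,
      Module.End.mul_apply, map_neg, map_sum, map_smul, ContinuousMap.neg_apply,
      ContinuousMap.sum_apply, ContinuousMap.smul_apply, smul_eq_mul, der_res, cm_res,
      O.dir_eq hF, O.dir_eq (contDiff_der hF _ _)]
  rw [(Submodule.equivMapOfInjective c hc
    (O.H0.toSubmodule ⊓ C.Iv ⊓ (O.lap B).eigenspace l)).rank_eq,
    ← Submodule.span_eq (Submodule.map _ _)]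
  refine congrArg (fun S : Set (grp O.g → ℂ) => Module.rank ℂ (Submodule.span ℂ S))
    (Set.ext fun f => ⟨?_, ?_⟩)
  · rintro ⟨F, hF, h2, h3, h4⟩
    obtain rfl := funext h2
    exact ⟨res F hF, ⟨⟨fun x y h => h3 1 (one_mem _) x y (by simpa using h),
      fun γ => ext' fun x => (h3 γ γ.2 x (pt γ x) (pt_smul γ x).symm).symm⟩,
      Module.End.mem_eigenspace_iff.2 (ext' fun x => (h1 F hF x).trans (h4 x))⟩, rfl⟩
  · rintro ⟨f, ⟨⟨h2, h5⟩, h3⟩, rfl⟩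
    obtain ⟨F, hF, rfl⟩ := exists_res f
    exact ⟨F, hF, fun _ => rfl, fun γ hγ x y h => (congrArg (cm · x) (h5 ⟨γ, hγ⟩)).symm.trans
      (h2 (pt ⟨γ, hγ⟩ x) y ((pt_smul ⟨γ, hγ⟩ x).trans h)), fun x => (h1 F hF x).symm.trans
      (congrArg (cm · x) (Module.End.mem_eigenspace_iff.1 h3))⟩

theorem inv_mem_adm_iff {g : Matrix (Fin d) (Fin d) ℝ} (hg : g.PosDef) : g⁻¹ ∈ C.adm ↔
    ∀ γ ∈ C.Γ, ∀ y : grp O.g, (val y * γ) • O.v = O.v → ∀ a b a' b' : Fin d → ℝ,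
      (val y * γ) • (∑ i, a i • (O.e i : A) • O.v) = ∑ i, a' i • (O.e i : A) • O.v →
      (val y * γ) • (∑ i, b i • (O.e i : A) • O.v) = ∑ i, b' i • (O.e i : A) • O.v →
      a' ⬝ᵥ g *ᵥ b' = a ⬝ᵥ g *ᵥ b := by
  have key : ∀ {γ : C.Γ} {y : grp O.g} (hk : (val y * vl γ) • O.v = O.v)
      {T : Matrix (Fin d) (Fin d) ℝ}
      (hT : ∀ j, ad y (adG γ (O.e j)) = ∑ i, T i j • O.e i) (a : Fin d → ℝ),
      (val y * vl γ) • (∑ i, a i • (O.e i : A) • O.v) = ∑ i, (T *ᵥ a) i • (O.e i : A) • O.v :=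
    fun {γ y} hk T hT a => by
      simp only [Finset.smul_sum, smul_comm (val y * vl γ) (a _), smul_T hk hT, Matrix.mulVec,
        dotProduct, Finset.sum_smul, smul_smul (a _)]
      rw [Finset.sum_comm]
      simp only [mul_comm]
  have key2 : ∀ (T : Matrix (Fin d) (Fin d) ℝ) a b,
      (T *ᵥ a) ⬝ᵥ g *ᵥ (T *ᵥ b) = a ⬝ᵥ (Tᵀ * g * T) *ᵥ b := fun T a b => by
    simp only [← Matrix.mulVec_mulVec, Matrix.dotProduct_mulVec a, Matrix.vecMul_transpose]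
  refine ⟨fun h γ hγ y hk a b a' b' ha hb => ?_, fun h => ⟨hg.inv.1, fun γ y hk T hT => ?_⟩⟩
  · obtain ⟨T, hT⟩ := exists_T (γ := ⟨γ, hγ⟩) hk
    have h1 := inv_conj hg.inv (h.2 ⟨γ, hγ⟩ y hk T hT)
    rw [Matrix.nonsing_inv_nonsing_inv _ ((Matrix.isUnit_iff_isUnit_det _).1 hg.isUnit)] at h1
    replace ha := (key (γ := ⟨γ, hγ⟩) hk hT a).symm.trans ha
    replace hb := (key (γ := ⟨γ, hγ⟩) hk hT b).symm.trans hb
    rw [← funext (Fintype.linearIndependent_iffₛ.1 O.li _ _ ha),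
      ← funext (Fintype.linearIndependent_iffₛ.1 O.li _ _ hb), key2, h1]
  · refine inv_conj (S := Tᵀ) hg (Matrix.ext fun i j => ?_)
    have h1 := h γ γ.2 y hk (Pi.single i 1) (Pi.single j 1) _ _ (key hk hT _) (key hk hT _)
    rw [key2] at h1
    simpa using h1

theorem isCompact_coG (m : ℂ → ℕ) :
    IsCompact {B | B.PosDef ∧ C.fam.Spec m B} := by
  rw [isCompact_iff_ultrafilter_le_nhds]
  intro 𝓤 h𝓤
  have h0 : ∀ᶠ B in 𝓤, B.PosDef ∧ C.fam.Spec m B := le_principal_iff.1 h𝓤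
  obtain ⟨B0, hB0, hI⟩ : ∃ B0, (B0.PosDef ∧ C.fam.Spec m B0) ∧ ∀ᶠ B in 𝓤, C.fam.Iso B B0 := by
    obtain ⟨B1, -, h1⟩ := Fam.exists_iso 𝓤 (h0.mono fun _ h => h.2)
    obtain ⟨B0, h2, h3⟩ := (h0.and h1).exists
    exact ⟨B0, h2, h1.mono fun B h V hV l => (h V hV l).trans (h3 V hV l).symm⟩
  obtain ⟨M, hM⟩ := C.exists_trace_leG B0
  obtain ⟨B, -, hB⟩ := (isCompact_univ_pi fun _ : Fin d => isCompact_univ_pi fun _ : Fin d =>
    isCompact_Icc (a := -M) (b := M)).ultrafilter_le_nhds' 𝓤 (by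
      filter_upwards [h0, hI] with B h1 h2 i _ j _
      exact abs_le.1 ((abs_le_trace h1.1.posSemidef i j).trans (hM B h1.2.1 h1.1.posSemidef h2)))
  have hc : IsClosed C.adm := by
    simp only [adm, Set.ofPred_and, Set.ofPred_forall]
    exact (isClosed_eq (by fun_prop) continuous_id).inter (isClosed_iInter fun γ =>
      isClosed_iInter fun y => isClosed_iInter fun _ => isClosed_iInter fun T => isClosed_iInter fun _ =>
        isClosed_eq (by fun_prop) continuous_id)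
  have hB1 : B ∈ C.adm := hc.mem_of_tendsto (f := id) hB (h0.mono fun _ h => h.2.1)
  have hB2 : C.fam.Iso B B0 := Fam.iso_lim hB1 hB0.2.1
    ((show Continuous C.fam.a from continuous_pi fun s => Complex.continuous_ofReal.comp
      (continuous_id.matrix_elem s.1 s.2)).continuousAt.mono_left hB)
    ((h0.and hI).mono fun _ h => ⟨h.1.2.1, h.2⟩)
  refine ⟨B, ⟨?_, hB2.spec hB1 hB0.2⟩, hB⟩
  obtain ⟨a, ha, h⟩ := O.exists_aux_le hB0.1
  have hn : (Fintype.card C.Γ : ℝ) ≠ 0 := Nat.cast_ne_zero.2 Fintype.card_ne_zero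
  have h1 : ∀ (S : Module.End ℂ O.H), ∀ f ∈ C.Iv, (inner ℂ f (((((1 : ℝ) : ℂ)) • S -
      ((a / Fintype.card C.Γ : ℝ) : ℂ) • C.auxG) f)).re =
        (inner ℂ f (S f)).re - a * (inner ℂ f (O.aux f)).re := fun S f hf => by
    rw [LinearMap.sub_apply, LinearMap.smul_apply, LinearMap.smul_apply, inner_sub_right,
      inner_smul_right, inner_smul_right, C.inner_auxG hf, ← mul_assoc, ← Complex.ofReal_natCast,
      ← Complex.ofReal_mul, div_mul_cancel₀ _ hn]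
    simp
  refine C.posDef_ofG hB1 ha fun N f hf => ?_
  have h2 := hB2.transfer hB1 (C.fam.good_U N)
    (L := ((a / Fintype.card C.Γ : ℝ) : ℂ) • C.auxG)
    (LinearMap.IsSymmetric.smul (Complex.conj_ofReal _) (C.auxG_symm))
    (fun f hf => Submodule.smul_mem _ _ (C.auxG_mem N f hf))
    (fun q _ f _ => (map_smul (O.lap q) _ _).trans (congrArg _ (C.lap_auxG q f))) (s := 1)
    one_ne_zero (fun f hf => by rw [h1 _ _ hf.2, sub_nonneg]; exact h f (O.U_le _ hf.1)) f hf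
  rwa [h1 _ _ hf.2, sub_nonneg] at h2

theorem isCompact_metricG (m : ℝ → ℕ) : IsCompact {g : Matrix (Fin d) (Fin d) ℝ |
    (g.PosDef ∧ ∀ γ ∈ C.Γ, ∀ y : grp O.g, (val y * γ) • O.v = O.v → ∀ a b a' b' : Fin d → ℝ,
      (val y * γ) • (∑ i, a i • (O.e i : A) • O.v) = ∑ i, a' i • (O.e i : A) • O.v →
      (val y * γ) • (∑ i, b i • (O.e i : A) • O.v) = ∑ i, b' i • (O.e i : A) • O.v →
      a' ⬝ᵥ g *ᵥ b' = a ⬝ᵥ g *ᵥ b) ∧ ∀ l : ℝ,
    Module.rank ℂ (Submodule.span ℂ {f : grp O.g → ℂ | ∃ F : A → ℂ, ContDiff ℝ ∞ F ∧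
      (∀ x, f x = F (val x)) ∧
      (∀ γ ∈ C.Γ, ∀ x y : grp O.g, (γ : A) • val x • O.v = val y • O.v → f x = f y) ∧
      ∀ x : grp O.g, -∑ i, ∑ j, (g⁻¹ i j : ℂ) * dir (O.e i : A) (dir (O.e j : A) F) (val x) =
        l * F (val x)}) = m l} := by
  have hd : ∀ {B : Matrix (Fin d) (Fin d) ℝ}, B.PosDef → IsUnit B.det := fun hB =>
    (Matrix.isUnit_iff_isUnit_det _).1 hB.isUnit
  convert (C.isCompact_coG fun l => if l.im = 0 then m l.re else 0).image_of_continuousOn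
    (f := fun B => B⁻¹) fun B hB => (continuousAt_matrix_inv B (by
      rw [Ring.inverse_eq_inv']
      exact continuousAt_inv₀ (hd hB.1).ne_zero)).continuousWithinAt using 1
  simp only [rank_eqG]
  refine Set.ext fun g => ⟨fun ⟨⟨h1, h2⟩, h3⟩ => ⟨g⁻¹, ⟨h1.inv, (C.spec_iff
    ((C.inv_mem_adm_iff h1).2 h2) m).2 h3⟩, Matrix.nonsing_inv_nonsing_inv _ (hd h1)⟩, ?_⟩
  rintro ⟨B, ⟨h1, h2⟩, rfl⟩
  have h3 := Matrix.nonsing_inv_nonsing_inv _ (hd h1)
  refine ⟨⟨h1.inv, (C.inv_mem_adm_iff h1.inv).1 (h3.symm ▸ h2.1)⟩, ?_⟩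
  rw [h3]
  exact (C.spec_iff h2.1 m).1 h2

end Cov

end Pool.Agent.Lib.MP_1a4aff_gt
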